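import Pool.Agent.P.MP_1b44ce_gt.Frame

/-! An upper bound, linear in the volume, for the counting function of `HM d A`. -/

namespace Pool.Agent.P.MP_1b44ce_gt

open MeasureTheory Matrix Set
open scoped ContDiff

variable {d : ℕ}

lemma diff_of {f : E d → ℝ} (hf : ContDiff ℝ ∞ f) : Differentiable ℝ f :=
  hf.differentiable (by simp)

/-- the eigenspace in terms of the frame -/
def Eig (d A : ℕ) (μ : ℝ) : Submodule ℝ (E d → ℝ) where
  carrier := {f | ContDiff ℝ ∞ f ∧ Invt A f ∧ ∀ x, -∑ i, X i (X i f) x = μ * f x}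
  add_mem' := by
    rintro f g ⟨f1, f2, f3⟩ ⟨g1, g2, g3⟩
    refine ⟨f1.add g1, fun u hu x => by simp [f2 u hu, g2 u hu], fun x => ?_⟩
    simp only [X_add (diff_of f1) (diff_of g1),
      X_add (diff_of (contDiff_X f1 _)) (diff_of (contDiff_X g1 _)), Pi.add_apply,
      Finset.sum_add_distrib]
    linarith [f3 x, g3 x]
  zero_mem' := by
    have h : ∀ i, X i (0 : E d → ℝ) = 0 := fun i => by
      have := X_smul (f := (0 : E d → ℝ)) (differentiable_const 0) 0 i
      simpa using this
    exact ⟨contDiff_const, fun u hu x => rfl, fun x => by simp [h]⟩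
  smul_mem' := by
    rintro c f ⟨f1, f2, f3⟩
    refine ⟨f1.const_smul c, fun u hu x => by simp [f2 u hu], fun x => ?_⟩
    simp only [X_smul (diff_of f1), X_smul (diff_of (contDiff_X f1 _)), Pi.smul_apply,
      smul_eq_mul, ← Finset.mul_sum]
    linear_combination c * f3 x

lemma eigsp_eq (A : ℕ) (μ : ℝ) : (HM d A).eigsp μ = Eig d A μ := by
  rw [QuotMfd.eigsp, ← (Eig d A μ).span_eq]
  congr 1
  ext f
  constructor
  · rintro ⟨h1, h2, h3⟩
    exact ⟨h1, fun u hu x => h2 (Lt u) ⟨u, hu, rfl⟩ x, fun x => by rw [← lap_X (A := A) h1, h3]⟩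
  · rintro ⟨h1, h2, h3⟩
    refine ⟨h1, ?_, fun x => by rw [lap_X h1, h3]⟩
    rintro _ ⟨u, hu, rfl⟩ x
    exact h2 u hu x

/-- the `L²` pairing -/
noncomputable def B (A : ℕ) (f g : E d → ℝ) : ℝ := ∫ p in box A, f p * g p

/-- the Dirichlet pairing -/
noncomputable def D (A : ℕ) (f g : E d → ℝ) : ℝ := ∑ i, B A (X i f) (X i g)

lemma B_comm (A : ℕ) (f g : E d → ℝ) : B A f g = B A g f := by simp [B, mul_comm]

lemma D_comm (A : ℕ) (f g : E d → ℝ) : D A f g = D A g f := by simp [D, B_comm A (X _ f)]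

lemma B_add {A : ℕ} {f g h : E d → ℝ} (hf : Continuous f) (hg : Continuous g)
    (hh : Continuous h) : B A (f + g) h = B A f h + B A g h := by
  simp only [B, Pi.add_apply, add_mul]
  exact integral_add (intOn (hf.mul hh)) (intOn (hg.mul hh))

lemma D_add {A : ℕ} {f g h : E d → ℝ} (hf : ContDiff ℝ ∞ f) (hg : ContDiff ℝ ∞ g)
    (hh : ContDiff ℝ ∞ h) : D A (f + g) h = D A f h + D A g h := by
  simp only [D, X_add (diff_of hf) (diff_of hg), ← Finset.sum_add_distrib]
  exact Finset.sum_congr rfl fun i _ => B_add (contDiff_X hf i).continuous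
    (contDiff_X hg i).continuous (contDiff_X hh i).continuous

lemma B_nonneg (A : ℕ) (f : E d → ℝ) : 0 ≤ B A f f := integral_nonneg fun _ => mul_self_nonneg _

lemma green {A : ℕ} {f g : E d → ℝ} {μ : ℝ} (f1 : ContDiff ℝ ∞ f) (f2 : Invt A f)
    (hg : g ∈ Eig d A μ) : D A f g = μ * B A f g := by
  obtain ⟨g1, g2, g3⟩ := hg
  have h1 : ∀ i, B A (X i f) (X i g) = -B A f (X i (X i g)) := by
    intro i
    have hX := contDiff_X g1 i
    have h := int_X (A := A) (u := fun x => f x * X i g x)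
      (fun u hu x => by simp only [f2 u hu x, g2.X (diff_of g1) i u hu x]) (f1.mul hX) i
    simp only [X_mul (diff_of f1) (diff_of hX)] at h
    rw [integral_add (f := fun p => X i f p * X i g p) (g := fun p => f p * X i (X i g) p)
      (intOn ((contDiff_X f1 i).continuous.mul hX.continuous))
      (intOn (f1.continuous.mul (contDiff_X hX i).continuous))] at h
    simp only [B]; linarith
  simp only [D, h1]
  simp only [B]
  rw [Finset.sum_neg_distrib, ← integral_finsetSum (f := fun i p => f p * X i (X i g) p) _ (fun i _ =>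
    intOn (f1.continuous.mul (contDiff_X (contDiff_X g1 i) i).continuous)), ← integral_neg,
    ← integral_const_mul]
  refine integral_congr_ae (Filter.Eventually.of_forall fun p => ?_)
  simp only [← Finset.mul_sum]
  linear_combination f p * g3 p

lemma rayleigh_sum {A : ℕ} {t : ℝ} (φ : ℝ → E d → ℝ) (s : Finset ℝ)
    (h : ∀ μ ∈ s, μ ≤ t ∧ φ μ ∈ Eig d A μ) :
    ContDiff ℝ ∞ (∑ μ ∈ s, φ μ) ∧ Invt A (∑ μ ∈ s, φ μ) ∧
      (∀ ν ∉ s, ∀ g ∈ Eig d A ν, B A (∑ μ ∈ s, φ μ) g = 0) ∧
      D A (∑ μ ∈ s, φ μ) (∑ μ ∈ s, φ μ) ≤ t * B A (∑ μ ∈ s, φ μ) (∑ μ ∈ s, φ μ) := by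
  classical
  induction s using Finset.induction_on with
  | empty =>
    have h0 : (0 : E d → ℝ) ∈ Eig d A 0 := zero_mem _
    refine ⟨contDiff_const, fun u hu x => rfl, fun ν _ g _ => by simp [B], ?_⟩
    rw [Finset.sum_empty, green h0.1 h0.2.1 h0]; simp [B]
  | insert a s ha ih =>
    obtain ⟨i1, i2, i3, i4⟩ := ih fun μ hμ => h μ (Finset.mem_insert_of_mem hμ)
    obtain ⟨hat, hφ⟩ := h a (Finset.mem_insert_self _ _)
    rw [Finset.sum_insert ha]
    set f := ∑ μ ∈ s, φ μ
    set g := φ a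
    have g1 := hφ.1
    have s1 : ContDiff ℝ ∞ (g + f) := g1.add i1
    refine ⟨s1, fun u hu x => by simp [i2 u hu, hφ.2.1 u hu], fun ν hν k hk => ?_, ?_⟩
    · rw [Finset.mem_insert, not_or] at hν
      rw [B_add g1.continuous i1.continuous hk.1.continuous, i3 ν hν.2 k hk, add_zero]
      have e1 := green g1 hφ.2.1 hk
      have e2 := green hk.1 hk.2.1 hφ
      rw [D_comm, e1, B_comm A k g] at e2
      have : (ν - a) * B A g k = 0 := by linarith
      exact (mul_eq_zero.1 this).resolve_left (sub_ne_zero.2 hν.1)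
    · have b0 : B A f g = 0 := i3 a ha g hφ
      have d0 : D A f g = 0 := by rw [green i1 i2 hφ, b0, mul_zero]
      rw [D_add g1 i1 s1, B_add g1.continuous i1.continuous s1.continuous, D_comm A g,
        D_comm A f, B_comm A g, B_comm A f, D_add g1 i1 g1, D_add g1 i1 i1,
        B_add g1.continuous i1.continuous g1.continuous,
        B_add g1.continuous i1.continuous i1.continuous, D_comm A g f, B_comm A g f, b0, d0,
        green g1 hφ.2.1 hφ]
      nlinarith [B_nonneg A g]

lemma rayleigh {A : ℕ} {t : ℝ} {f : E d → ℝ} (hf : f ∈ ⨆ μ ∈ Iic t, Eig d A μ) :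
    ContDiff ℝ ∞ f ∧ Invt A f ∧ D A f f ≤ t * B A f f := by
  obtain ⟨φ, h1, rfl⟩ := (Submodule.mem_iSup_iff_exists_finsupp _ _).1 hf
  have := rayleigh_sum (A := A) (t := t) φ φ.support fun μ hμ => by
    by_cases hμt : μ ∈ Iic t
    · have := h1 μ
      rw [iSup_pos hμt] at this
      exact ⟨hμt, this⟩
    · have := h1 μ
      rw [iSup_neg hμt] at this
      exact absurd this (Finsupp.mem_support_iff.1 hμ)
  exact ⟨this.1, this.2.1, this.2.2.2⟩

lemma sq_int_le {φ : ℝ → ℝ} (h : Continuous φ) :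
    (∫ t in Ioc (0 : ℝ) 1, φ t) ^ 2 ≤ ∫ t in Ioc (0 : ℝ) 1, φ t ^ 2 := by
  set m := ∫ t in Ioc (0 : ℝ) 1, φ t with hm
  have hi : ∀ {ψ : ℝ → ℝ}, Continuous ψ → IntegrableOn ψ (Ioc (0 : ℝ) 1) := fun hψ =>
    hψ.integrableOn_Ioc
  have h0 : 0 ≤ ∫ t in Ioc (0 : ℝ) 1, (φ t ^ 2 - 2 * m * φ t + m ^ 2) :=
    integral_nonneg fun t => by simp only [Pi.zero_apply]; nlinarith [sq_nonneg (φ t - m)]
  rw [integral_add (hi (by fun_prop)) (hi (by fun_prop)),
    integral_sub (hi (by fun_prop)) (hi (by fun_prop)), integral_const_mul, ← hm] at h0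
  simp at h0
  nlinarith

lemma shift_bound {A : ℕ} {f : E d → ℝ} (f1 : ContDiff ℝ ∞ f) (f2 : Invt A f) {ρ : ℝ}
    (hρ : ρ ≤ 1) {v : E d} (hv : ‖v‖ ≤ ρ) :
    ∫ p in box A, (f p - f (mul p v)) ^ 2 ≤ 4 * (d + 3) * ρ ^ 2 * D A f f := by
  have hX : ∀ i, Continuous (X i f) := fun i => (contDiff_X f1 i).continuous
  set G : E d → ℝ := fun p => ∑ i, X i f p * X i f p with hG
  have hGc : Continuous G := by simp only [hG]; fun_prop
  have hGi : Invt A G := fun u hu x => by simp only [hG, f2.X (diff_of f1) _ u hu]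
  have hρ0 : 0 ≤ ρ := (norm_nonneg v).trans hv
  have hvi : ∀ i, |v i| ≤ ρ := fun i => (norm_le_pi_norm v i).trans hv
  have hco : ∀ t ∈ Ioc (0 : ℝ) 1, ∑ i, coef v t i ^ 2 ≤ 4 * (d + 3) * ρ ^ 2 := by
    intro t ht
    have h1 : ∀ i, coef v t i ^ 2 ≤ (2 * ρ) ^ 2 := by
      intro i
      apply sq_le_sq'
      all_goals
        have h2 : |e 2 i * (t * v 0 * v 1)| ≤ ρ := by
          have he : |e 2 i| ≤ 1 := by unfold e; split_ifs <;> simp
          have ht' : |t| ≤ 1 := by rw [abs_of_pos ht.1]; exact ht.2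
          rw [abs_mul, abs_mul, abs_mul]
          calc _ ≤ 1 * (1 * 1 * ρ) := by gcongr; exacts [(hvi 0).trans hρ, hvi 1]
            _ = ρ := by ring
        have h3 := abs_le.1 (hvi i)
        have h4 := abs_le.1 h2
        simp only [coef]; linarith [h3.1, h3.2, h4.1, h4.2]
    calc ∑ i, coef v t i ^ 2 ≤ ∑ _i : Fin (d + 3), (2 * ρ) ^ 2 := Finset.sum_le_sum fun i _ => h1 i
      _ = _ := by simp; ring
  have hpt : ∀ p, (f p - f (mul p v)) ^ 2 ≤
      4 * (d + 3) * ρ ^ 2 * ∫ t in Ioc (0 : ℝ) 1, G (mul p (t • v)) := by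
    intro p
    have hpc : Continuous fun t : ℝ => mul p (t • v) :=
      (continuous_path v).comp (continuous_const.prodMk continuous_id)
    have hc : Continuous fun t : ℝ => ∑ i, coef v t i * X i f (mul p (t • v)) := by
      refine continuous_finsetSum _ fun i _ => Continuous.mul ?_ ((hX i).comp hpc)
      unfold coef; fun_prop
    have h1 : ∫ t in Ioc (0 : ℝ) 1, ∑ i, coef v t i * X i f (mul p (t • v)) =
        f (mul p v) - f p := by
      rw [← intervalIntegral.integral_of_le zero_le_one,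
        intervalIntegral.integral_eq_sub_of_hasDerivAt
          (fun t _ => hasDerivAt_path (diff_of f1) p v t) (hc.intervalIntegrable _ _)]
      simp
    have h2 := sq_int_le hc
    rw [h1] at h2
    rw [← neg_sub, neg_sq, ← integral_const_mul]
    refine h2.trans (setIntegral_mono_on (hc.pow 2).integrableOn_Ioc
      (continuous_const.mul (hGc.comp hpc)).integrableOn_Ioc measurableSet_Ioc fun t ht => ?_)
    refine (Finset.sum_mul_sq_le_sq_mul_sq _ _ _).trans ?_
    simp only [hG, ← sq]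
    gcongr
    exact hco t ht
  have h2 := swap (A := A) isCompact_Icc (Ioc_subset_Icc_self (a := (0 : ℝ)) (b := 1))
    (H := fun p t => G (mul p (t • v))) (hGc.comp (continuous_path v))
  simp only [int_right hGi] at h2
  have h3 : ∫ p in box A, G p = D A f f := by
    simp only [hG, D, B]
    exact integral_finsetSum _ fun i _ => intOn ((hX i).mul (hX i))
  have hc : Continuous fun p => ∫ t in Ioc (0 : ℝ) 1, G (mul p (t • v)) := by
    simp only [← intervalIntegral.integral_of_le zero_le_one]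
    exact intervalIntegral.continuous_parametric_intervalIntegral_of_continuous'
      (f := fun p t => G (mul p (t • v))) (hGc.comp (continuous_path v)) _ _
  calc _ ≤ ∫ p in box A, 4 * (d + 3) * ρ ^ 2 * ∫ t in Ioc (0 : ℝ) 1, G (mul p (t • v)) :=
        integral_mono (intOn ((f1.continuous.sub (f1.continuous.comp (Rh v).continuous)).pow 2))
          (intOn (continuous_const.mul hc)) hpt
    _ = _ := by rw [integral_const_mul, h2, h3]; simp

/-- the small cubes -/
def cube (N : ℕ) (j : Fin (d + 3) → ℕ) : Set (E d) :=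
  Set.pi univ fun i => Icc ((j i : ℝ) / N) ((j i + 1) / N)

lemma cube_compact (N : ℕ) (j : Fin (d + 3) → ℕ) : IsCompact (cube N j) :=
  isCompact_univ_pi fun _ => isCompact_Icc

lemma cube_vol {N : ℕ} (hN : 0 < N) (j : Fin (d + 3) → ℕ) :
    volume.real (cube N j) = (1 / N) ^ (d + 3) := by
  have hN' : (0 : ℝ) < N := by exact_mod_cast hN
  rw [Measure.real, cube, Set.pi_univ_Icc, Real.volume_Icc_pi_toReal (fun i => by
    simp only; gcongr; linarith)]
  have : ∀ i, ((j i : ℝ) + 1) / N - (j i : ℝ) / N = 1 / N := fun i => by ring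
  simp [this]

lemma cube_ex {A N : ℕ} (hN : 0 < N) {p : E d} (hp : p ∈ box A) :
    ∃ j : (i : Fin (d + 3)) → Fin (len A i * N), p ∈ cube N (fun i => j i) := by
  have hN' : (0 : ℝ) < N := by exact_mod_cast hN
  have h0 : ∀ i, 0 ≤ p i * N := fun i => mul_nonneg (hp i trivial).1 hN'.le
  refine ⟨fun i => ⟨⌊p i * N⌋₊, ?_⟩, fun i _ => ⟨?_, ?_⟩⟩
  · rw [Nat.floor_lt (h0 i)]
    push_cast
    exact mul_lt_mul_of_pos_right (hp i trivial).2 hN'
  · rw [div_le_iff₀ hN']; exact Nat.floor_le (h0 i)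
  · rw [le_div_iff₀ hN']; exact (Nat.lt_floor_add_one _).le

lemma point_bound {A N : ℕ} (hN : 0 < N) {f : E d → ℝ} (hf : Continuous f) {p : E d}
    (hp : p ∈ box A) {j : Fin (d + 3) → ℕ} (hj : p ∈ cube N j) (h0 : ∫ q in cube N j, f q = 0) :
    (1 / N) ^ (d + 3) * (f p * f p) ≤
      ∫ v in Metric.closedBall (0 : E d) (2 / N), (f p - f (mul p v)) ^ 2 := by
  have hN' : (0 : ℝ) < N := by exact_mod_cast hN
  have hi : ∀ {ψ : E d → ℝ}, Continuous ψ → IntegrableOn ψ (cube N j) := fun hψ =>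
    hψ.continuousOn.integrableOn_compact (cube_compact N j)
  have h1 : (1 / N) ^ (d + 3) * (f p * f p) ≤ ∫ q in cube N j, (f p - f q) ^ 2 := by
    have h2 : ∫ q in cube N j, (f p * f p - 2 * f p * f q) = (1 / N) ^ (d + 3) * (f p * f p) := by
      rw [integral_sub (hi continuous_const) (hi (by fun_prop)), integral_const_mul (2 * f p), h0,
        setIntegral_const, cube_vol hN]
      simp
    rw [← h2]
    exact integral_mono (hi (by fun_prop)) (hi (by fun_prop)) fun q => by
      simp only; nlinarith [sq_nonneg (f q)]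
  rw [← (mp_left p).setIntegral_preimage_emb (Lh p).measurableEmbedding] at h1
  refine h1.trans (setIntegral_mono_set ?_ (Filter.Eventually.of_forall fun v => sq_nonneg _)
    (LE.le.eventuallyLE fun v hv => ?_))
  · exact ((continuous_const.sub (hf.comp (Lh p).continuous)).pow 2).continuousOn
      |>.integrableOn_compact (isCompact_closedBall _ _)
  · have hq : ∀ i, |mul p v i - p i| ≤ 1 / N := fun i => by
      have a := hv i trivial
      have b := hj i trivial
      have : ((j i : ℝ) + 1) / N = (j i : ℝ) / N + 1 / N := by ring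
      rw [abs_le]; constructor <;> linarith [a.1, a.2, b.1, b.2]
    have hv1 : |v 1| ≤ 1 / N := by simpa [mul] using hq 1
    have hp0 : |p 0| ≤ 1 := by
      have : p 0 ∈ Ico (0 : ℝ) (len A (0 : Fin (d + 3))) := hp 0 trivial
      rw [len_ne ne01] at this
      rw [abs_of_nonneg this.1]; simpa using this.2.le
    rw [mem_closedBall_zero_iff, pi_norm_le_iff_of_nonneg (by positivity)]
    intro i
    have h2 : |e 2 i * (p 0 * v 1)| ≤ 1 / N := by
      have he : |e 2 i| ≤ 1 := by unfold e; split_ifs <;> simp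
      rw [abs_mul, abs_mul]
      calc _ ≤ 1 * (1 * (1 / (N : ℝ))) := by gcongr
        _ = _ := by ring
    have h3 := abs_le.1 (hq i)
    have h4 := abs_le.1 h2
    have h5 : (2 : ℝ) / N = 1 / N + 1 / N := by ring
    simp only [mul] at h3
    rw [Real.norm_eq_abs, abs_le]; constructor <;> linarith [h3.1, h3.2, h4.1, h4.2]

lemma poincare {A N : ℕ} (hN : 2 ≤ N) {f : E d → ℝ} (f1 : ContDiff ℝ ∞ f) (f2 : Invt A f)
    (h0 : ∀ j : (i : Fin (d + 3)) → Fin (len A i * N), ∫ q in cube N (fun i => j i), f q = 0) :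
    (N : ℝ) ^ 2 * B A f f ≤ 4 ^ (d + 3) * (16 * (d + 3)) * D A f f := by
  have hN' : (2 : ℝ) ≤ N := by exact_mod_cast hN
  have hN0 : (0 : ℝ) < N := by linarith
  have hc : Continuous (Function.uncurry fun p v : E d => (f p - f (mul p v)) ^ 2) :=
    ((f1.continuous.comp continuous_fst).sub (f1.continuous.comp continuous_mul2)).pow 2
  have hK := isCompact_closedBall (0 : E d) (2 / N)
  have h1 : (1 / N) ^ (d + 3) * B A f f ≤
      ∫ p in box A, ∫ v in Metric.closedBall (0 : E d) (2 / N), (f p - f (mul p v)) ^ 2 := by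
    rw [B, ← integral_const_mul]
    refine setIntegral_mono_on (intOn (by have := f1.continuous; fun_prop))
      (intOn (continuous_parametric_integral_of_continuous hc hK)) (box_meas A) fun p hp => ?_
    obtain ⟨j, hj⟩ := cube_ex (N := N) (by omega) hp
    exact point_bound (by omega) f1.continuous hp hj (h0 j)
  rw [swap hK subset_rfl hc] at h1
  have h2 : ∫ v in Metric.closedBall (0 : E d) (2 / N), ∫ p in box A, (f p - f (mul p v)) ^ 2 ≤
      ∫ _v in Metric.closedBall (0 : E d) (2 / N), 4 * (d + 3) * (2 / N) ^ 2 * D A f f := by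
    refine integral_mono_of_nonneg (Filter.Eventually.of_forall fun v =>
      integral_nonneg fun p => sq_nonneg _)
      (continuousOn_const.integrableOn_compact hK) ?_
    refine (ae_restrict_iff' Metric.isClosed_closedBall.measurableSet).2
      (Filter.Eventually.of_forall fun v hv => ?_)
    exact shift_bound f1 f2 (by rw [div_le_one hN0]; exact hN') (mem_closedBall_zero_iff.1 hv)
  rw [setIntegral_const, Measure.real, Real.volume_pi_closedBall _ (by positivity),
    ENNReal.toReal_ofReal (by positivity), Fintype.card_fin, smul_eq_mul] at h2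
  have h3 := h1.trans h2
  have h4 : (2 * (2 / (N : ℝ))) ^ (d + 3) = (1 / N) ^ (d + 3) * 4 ^ (d + 3) := by
    rw [← mul_pow]; congr 1; ring
  rw [h4, mul_assoc] at h3
  have h5 := le_of_mul_le_mul_left h3 (by positivity)
  have h6 := mul_le_mul_of_nonneg_left h5 (sq_nonneg (N : ℝ))
  refine h6.trans (le_of_eq ?_)
  field_simp
  ring

lemma eq_zero_of_B {A : ℕ} {f : E d → ℝ} (f1 : Continuous f) (f2 : Invt A f)
    (h : B A f f = 0) : f = 0 := by
  have h1 : (fun p => f p * f p) =ᵐ[volume.restrict (box A)] 0 :=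
    (setIntegral_eq_zero_iff_of_nonneg_ae (Filter.Eventually.of_forall fun p =>
      mul_self_nonneg (f p)) (intOn (f1.mul f1))).1 h
  have hL : ∀ i : Fin (d + 3), (0 : ℝ) < len A i := fun i => by exact_mod_cast len_pos A i
  have h2 : EqOn (fun p => f p * f p) 0 (box A) := by
    refine Measure.eqOn_of_ae_eq h1 (f1.mul f1).continuousOn continuousOn_const ?_
    rw [box, interior_pi_set finite_univ, closure_pi_set]
    refine Set.pi_mono fun i _ => ?_
    rw [interior_Ico, closure_Ioo (hL i).ne]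
    exact Ico_subset_Icc_self
  funext x
  obtain ⟨u, hu, hx⟩ := box_ex A x
  have := h2 hx
  rw [← f2 u hu x]
  exact mul_self_eq_zero.1 this

theorem count (d : ℕ) (t : ℝ) : ∃ c : ℕ, ∀ A : ℕ,
    Module.rank ℝ ↥(⨆ μ ∈ Iic t, Eig d A μ) ≤ (c * (A + 1) : ℕ) := by
  obtain ⟨N, hN⟩ := exists_nat_gt (max 2 (4 ^ (d + 3) * (16 * ((d : ℝ) + 3)) * t))
  have hN2 : (2 : ℝ) < N := (le_max_left _ _).trans_lt hN
  have hN2' : 2 ≤ N := by exact_mod_cast hN2.le
  have hN3 : 4 ^ (d + 3) * (16 * ((d : ℝ) + 3)) * t < (N : ℝ) ^ 2 := by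
    have := (le_max_right _ _).trans_lt hN
    nlinarith
  refine ⟨N ^ (d + 3), fun A => ?_⟩
  have hi : ∀ (f : ↥(⨆ μ ∈ Iic t, Eig d A μ)) j, IntegrableOn f.1 (cube N j) := fun f j =>
    (rayleigh f.2).1.continuous.continuousOn.integrableOn_compact (cube_compact N j)
  let Φ : ↥(⨆ μ ∈ Iic t, Eig d A μ) →ₗ[ℝ] (((i : Fin (d + 3)) → Fin (len A i * N)) → ℝ) :=
    { toFun := fun f j => ∫ q in cube N (fun i => j i), f.1 q
      map_add' := fun f g => by
        funext j
        exact integral_add (hi f _) (hi g _)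
      map_smul' := fun c f => by
        funext j
        exact integral_const_mul c _ }
  have hΦ : Function.Injective Φ := by
    rw [injective_iff_map_eq_zero]
    intro f hf
    obtain ⟨f1, f2, f3⟩ := rayleigh f.2
    have h1 := poincare hN2' f1 f2 fun j => congrFun hf j
    have h2 := B_nonneg A f.1
    have h3 : (0 : ℝ) ≤ 4 ^ (d + 3) * (16 * ((d : ℝ) + 3)) := by positivity
    have h4 : B A f.1 f.1 = 0 := by
      by_contra h
      have h5 : 0 < B A f.1 f.1 := lt_of_le_of_ne h2 (Ne.symm h)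
      nlinarith [mul_le_mul_of_nonneg_left f3 h3, mul_lt_mul_of_pos_right hN3 h5]
    exact Subtype.ext (eq_zero_of_B f1.continuous f2 h4)
  have h := LinearMap.rank_le_of_injective Φ hΦ
  rw [rank_fun', Fintype.card_pi] at h
  refine h.trans (le_of_eq ?_)
  congr 1
  simp only [Fintype.card_fin, Finset.prod_mul_distrib, Finset.prod_const, Finset.card_univ]
  rw [Finset.prod_eq_single 1 (fun i _ hi => len_ne hi) (by simp), mul_comm]
  simp [len]

end Pool.Agent.P.MP_1b44ce_gt
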