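import Mathlib

/-!
Closed connected Riemannian manifolds presented as quotients `ℝⁿ / Γ`, and their invariants,
written in the global coordinates of the universal cover.
-/

namespace Pool.Agent.P.MP_1b44ce_gt

open MeasureTheory Matrix
open scoped ContDiff

/-- The derivative of `f` in the `i`-th coordinate direction. -/
noncomputable def pd {n : ℕ} (i : Fin n) (f : (Fin n → ℝ) → ℝ) (x : Fin n → ℝ) : ℝ :=
  fderiv ℝ f x (Pi.single i 1)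

/-- A closed connected Riemannian `n`-manifold of the form `M = ℝⁿ / Γ`: a smooth Riemannian
metric `g` on `ℝⁿ` and a group `Γ` of smooth isometries of `g` acting freely, properly
discontinuously and cocompactly, with a measurable set `F` meeting each orbit exactly once. -/
structure QuotMfd (n : ℕ) where
  g : (Fin n → ℝ) → Matrix (Fin n) (Fin n) ℝ
  g_smooth : ∀ i j, ContDiff ℝ ∞ (fun x => g x i j)
  g_pos : ∀ x, (g x).PosDef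
  Γ : Subgroup (Equiv.Perm (Fin n → ℝ))
  Γ_smooth : ∀ γ ∈ Γ, ContDiff ℝ ∞ (fun x => γ x)
  Γ_isom : ∀ γ ∈ Γ, ∀ x v w,
    fderiv ℝ (fun y => γ y) x v ⬝ᵥ (g (γ x) *ᵥ fderiv ℝ (fun y => γ y) x w) = v ⬝ᵥ (g x *ᵥ w)
  free : ∀ γ ∈ Γ, ∀ x, γ x = x → γ = 1
  proper : ∀ K : Set (Fin n → ℝ), IsCompact K →
    {γ | γ ∈ Γ ∧ ∃ x ∈ K, γ x ∈ K}.Finite
  cocompact : ∃ K : Set (Fin n → ℝ), IsCompact K ∧ ∀ x, ∃ γ ∈ Γ, γ x ∈ K
  F : Set (Fin n → ℝ)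
  F_meas : MeasurableSet F
  F_fund : ∀ x, ∃! γ, γ ∈ Γ ∧ γ x ∈ F

namespace QuotMfd

variable {n : ℕ} (M : QuotMfd n)

/-- The Riemannian volume of `M`. -/
noncomputable def vol : ℝ := ∫ x in M.F, √((M.g x).det)

/-- The Christoffel symbol `Γᵏᵢⱼ`. -/
noncomputable def chr (k i j : Fin n) (x : Fin n → ℝ) : ℝ :=
  (1 / 2) * ∑ l, (M.g x)⁻¹ k l *
    (pd i (fun y => M.g y j l) x + pd j (fun y => M.g y i l) x - pd l (fun y => M.g y i j) x)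

/-- The Ricci tensor `Rᵢⱼ = ∂ₖ Γᵏᵢⱼ - ∂ⱼ Γᵏᵢₖ + Γᵏₖₗ Γˡᵢⱼ - Γᵏⱼₗ Γˡᵢₖ`. -/
noncomputable def ric (i j : Fin n) (x : Fin n → ℝ) : ℝ :=
  ∑ k, (pd k (M.chr k i j) x - pd j (M.chr k i k) x +
    ∑ l, (M.chr k k l x * M.chr l i j x - M.chr k j l x * M.chr l i k x))

/-- `Ric ≥ -(n-1) κ`. -/
def RicGe (κ : ℝ) : Prop :=
  ∀ x v : Fin n → ℝ, -((n : ℝ) - 1) * κ * (v ⬝ᵥ (M.g x *ᵥ v)) ≤ ∑ i, ∑ j, M.ric i j x * v i * v j

/-- The (nonnegative) Laplace-Beltrami operator `Δ f = - gⁱʲ (∂ᵢ ∂ⱼ f - Γᵏᵢⱼ ∂ₖ f)`. -/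
noncomputable def lap (f : (Fin n → ℝ) → ℝ) (x : Fin n → ℝ) : ℝ :=
  -∑ i, ∑ j, (M.g x)⁻¹ i j * (pd i (pd j f) x - ∑ k, M.chr k i j x * pd k f x)

/-- The `μ`-eigenspace of the Laplacian of `M`: it consists of the smooth `Γ`-invariant
functions `f` on `ℝⁿ` (the smooth functions on `M`) with `Δ f = μ f`. -/
noncomputable def eigsp (μ : ℝ) : Submodule ℝ ((Fin n → ℝ) → ℝ) :=
  Submodule.span ℝ
    {f | ContDiff ℝ ∞ f ∧ (∀ γ ∈ M.Γ, ∀ x, f (γ x) = f x) ∧ ∀ x, M.lap f x = μ * f x}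

/-- The eigenvalue `λₖ` (listed with multiplicity, starting from `λ₀ = 0`): the least `t` such
that the eigenspaces with eigenvalue at most `t` have total dimension at least `k + 1`. -/
noncomputable def eigval (k : ℕ) : ℝ :=
  sInf {t : ℝ | (k : Cardinal) < Module.rank ℝ ↥(⨆ μ ∈ Set.Iic t, M.eigsp μ)}

/-- The multiplicity `mₖ` of the eigenvalue `λₖ`. -/
noncomputable def mult (k : ℕ) : ℕ := Module.finrank ℝ ↥(M.eigsp (M.eigval k))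

/-- `c` is a geodesic of `g` with velocity `v`. -/
def IsGeodesic (c v : ℝ → (Fin n → ℝ)) : Prop :=
  ∀ t, HasDerivAt c (v t) t ∧
    HasDerivAt v (fun k => -∑ i, ∑ j, M.chr k i j (c t) * v t i * v t j) t

/-- The injectivity radius of `M`: the supremum of the `r` such that at every point the
exponential map of `M` is injective on the open ball of radius `r` of the tangent space. -/
noncomputable def inj : ℝ :=
  sSup {r : ℝ | ∀ c₁ v₁ c₂ v₂, M.IsGeodesic c₁ v₁ → M.IsGeodesic c₂ v₂ → c₁ 0 = c₂ 0 →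
    √(v₁ 0 ⬝ᵥ (M.g (c₁ 0) *ᵥ v₁ 0)) < r → √(v₂ 0 ⬝ᵥ (M.g (c₂ 0) *ᵥ v₂ 0)) < r →
    (∃ γ ∈ M.Γ, γ (c₁ 1) = c₂ 1) → v₁ 0 = v₂ 0}

end QuotMfd

end Pool.Agent.P.MP_1b44ce_gt
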