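import Pool.Agent.P.MP_1b44ce_gt.Mfd

/-! The left invariant frame and integration over the fundamental box. -/

namespace Pool.Agent.P.MP_1b44ce_gt

open MeasureTheory Matrix Set
open scoped ContDiff

variable {d : ℕ}

/-- the left invariant orthonormal frame acting on functions -/
noncomputable def X (i : Fin (d + 3)) (f : E d → ℝ) (p : E d) : ℝ :=
  pd i f p + e 1 i * (p 0 * pd 2 f p)

lemma contDiff_pd {f : E d → ℝ} (hf : ContDiff ℝ ∞ f) (i : Fin (d + 3)) :
    ContDiff ℝ ∞ (pd i f) := by
  unfold pd
  exact (hf.fderiv_right (m := ∞) (by simp)).clm_apply contDiff_const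

lemma contDiff_X {f : E d → ℝ} (hf : ContDiff ℝ ∞ f) (i : Fin (d + 3)) :
    ContDiff ℝ ∞ (X i f) := by
  have h1 := contDiff_pd hf i
  have h2 := contDiff_pd hf 2
  unfold X
  fun_prop

lemma fderiv_eq_sum (f : E d → ℝ) (q w : E d) : fderiv ℝ f q w = ∑ i, w i * pd i f q := by
  conv_lhs => rw [← Finset.univ_sum_single w]
  rw [map_sum]
  refine Finset.sum_congr rfl fun i _ => ?_
  have : (Pi.single i (w i) : E d) = w i • (Pi.single i 1 : E d) := by
    rw [← Pi.single_smul']; simp
  rw [this, map_smul]; rfl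

/-- coefficients of the path `t ↦ p · (t v)` in the frame -/
def coef (v : E d) (t : ℝ) (i : Fin (d + 3)) : ℝ := v i - e 2 i * (t * v 0 * v 1)

lemma hasDerivAt_path {f : E d → ℝ} (hf : Differentiable ℝ f) (p v : E d) (t : ℝ) :
    HasDerivAt (fun t : ℝ => f (mul p (t • v)))
      (∑ i, coef v t i * X i f (mul p (t • v))) t := by
  have hp : HasDerivAt (fun t : ℝ => mul p (t • v)) (fun i => v i + e 2 i * (p 0 * v 1)) t := by
    refine hasDerivAt_pi.2 fun i => ?_
    have h := ((hasDerivAt_id t).mul_const (v i + e 2 i * (p 0 * v 1))).const_add (p i)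
    rw [one_mul] at h
    refine h.congr_of_eventuallyEq (Filter.Eventually.of_forall fun s => ?_)
    simp [mul]; ring
  refine HasDerivAt.congr_deriv ((hf _).hasFDerivAt.comp_hasDerivAt t hp) ?_
  rw [fderiv_eq_sum]
  set q := mul p (t • v) with hq
  have hq0 : q 0 = p 0 + t * v 0 := by simp [hq, mul]
  have e1 : ∀ i, (v i + e 2 i * (p 0 * v 1)) * pd i f q
      = v i * pd i f q + e 2 i * (p 0 * v 1 * pd i f q) := fun i => by ring
  have e2 : ∀ i, coef v t i * X i f q = v i * pd i f q + e 1 i * (v i * q 0 * pd 2 f q)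
      - (e 2 i * (t * v 0 * v 1 * pd i f q)
        + e 2 i * (e 1 i * (t * v 0 * v 1 * q 0 * pd 2 f q))) := fun i => by
    simp only [coef, X]; ring
  simp only [e1, e2, Finset.sum_add_distrib, Finset.sum_sub_distrib, sum_e_mul, e12, hq0]
  ring

lemma hasDerivAt_X {f : E d → ℝ} (hf : Differentiable ℝ f) (p : E d) (i : Fin (d + 3)) (t : ℝ) :
    HasDerivAt (fun t : ℝ => f (mul p (t • e i))) (X i f (mul p (t • e i))) t := by
  refine HasDerivAt.congr_deriv (hasDerivAt_path hf p (e i) t) ?_
  have h : e i 0 * e i 1 = 0 := by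
    by_cases h0 : i = 0
    · subst h0; simp
    · rw [e_ne (Ne.symm h0), zero_mul]
  have : ∀ j, coef (e i) t j = e i j := fun j => by
    simp only [coef, mul_assoc, h, mul_zero, sub_zero]
  simp only [this, sum_e_mul]

lemma X_eq_deriv {f : E d → ℝ} (hf : Differentiable ℝ f) (p : E d) (i : Fin (d + 3)) :
    X i f p = deriv (fun t : ℝ => f (mul p (t • e i))) 0 := by
  rw [(hasDerivAt_X hf p i 0).deriv]; simp

lemma X_eq_of {f : E d → ℝ} (hf : Differentiable ℝ f) {p : E d} {i : Fin (d + 3)} {y : ℝ}
    (h : HasDerivAt (fun t : ℝ => f (mul p (t • e i))) y 0) : X i f p = y := by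
  rw [X_eq_deriv hf, h.deriv]

lemma hasDerivAt_X0 {f : E d → ℝ} (hf : Differentiable ℝ f) (p : E d) (i : Fin (d + 3)) :
    HasDerivAt (fun t : ℝ => f (mul p (t • e i))) (X i f p) 0 := by
  simpa using hasDerivAt_X hf p i 0

/-- invariance under the lattice -/
def Invt (A : ℕ) (f : E d → ℝ) : Prop := ∀ u, Lam A u → ∀ x, f (mul u x) = f x

lemma Invt.X {A : ℕ} {f : E d → ℝ} (h : Invt A f) (hf : Differentiable ℝ f) (i : Fin (d + 3)) :
    Invt A (X i f) := by
  intro u hu x
  rw [X_eq_deriv hf, X_eq_deriv hf]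
  simp only [mul_assoc', h u hu]

lemma X_mul {f g : E d → ℝ} (hf : Differentiable ℝ f) (hg : Differentiable ℝ g)
    (i : Fin (d + 3)) (p : E d) : X i (fun x => f x * g x) p = X i f p * g p + f p * X i g p := by
  refine X_eq_of (hf.mul hg) ?_
  exact HasDerivAt.congr_deriv ((hasDerivAt_X0 hf p i).mul (hasDerivAt_X0 hg p i)) (by simp)

lemma X_add {f g : E d → ℝ} (hf : Differentiable ℝ f) (hg : Differentiable ℝ g)
    (i : Fin (d + 3)) : X i (f + g) = X i f + X i g := by
  funext p
  exact X_eq_of (hf.add hg) ((hasDerivAt_X0 hf p i).add (hasDerivAt_X0 hg p i))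

lemma X_smul {f : E d → ℝ} (hf : Differentiable ℝ f) (c : ℝ)
    (i : Fin (d + 3)) : X i (c • f) = c • X i f := by
  funext p
  exact X_eq_of (hf.const_smul c) ((hasDerivAt_X0 hf p i).const_mul c)

lemma pd_add_mul {f g : E d → ℝ} (hf : Differentiable ℝ f) (hg : Differentiable ℝ g) (c : ℝ)
    (j : Fin (d + 3)) (p : E d) : pd j (fun x => f x + c * (x 0 * g x)) p =
      pd j f p + c * (e 0 j * g p + p 0 * pd j g p) := by
  have h0 : HasFDerivAt (fun y : E d => y 0) (ContinuousLinearMap.proj (R := ℝ) (0 : Fin (d + 3))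
    : E d →L[ℝ] ℝ) p := (ContinuousLinearMap.proj (R := ℝ) (φ := fun _ : Fin (d + 3) => ℝ)
      0).hasFDerivAt
  have h := (hf p).hasFDerivAt.add ((h0.mul (hg p).hasFDerivAt).const_mul c)
  have h' : HasFDerivAt (fun x : E d => f x + c * (x 0 * g x)) _ p := h
  rw [pd, h'.fderiv]
  simp [pd, Pi.single_apply, e, eq_comm]
  split_ifs <;> ring_nf

lemma lap_X {A : ℕ} {f : E d → ℝ} (hf : ContDiff ℝ ∞ f) (p : E d) :
    (HM d A).lap f p = -∑ i, X i (X i f) p := by
  rw [lap_eq _ rfl]
  congr 1
  have hd : ∀ i, Differentiable ℝ (pd i f) := fun i => (contDiff_pd hf i).differentiable (by simp)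
  have h1 : ∀ i j, pd j (X i f) p =
      pd j (pd i f) p + e 1 i * (e 0 j * pd 2 f p + p 0 * pd j (pd 2 f) p) := fun i j =>
    pd_add_mul (hd i) (hd 2) _ j p
  have h2 : ∀ i, X i (X i f) p = pd i (pd i f) p + e 1 i * (e 0 i * pd 2 f p
      + p 0 * pd i (pd 2 f) p + p 0 * pd 2 (pd i f) p + e 1 i * (p 0 ^ 2 * pd 2 (pd 2 f) p)) := by
    intro i
    rw [X, h1, h1, e02]; ring
  simp only [h2, Finset.sum_add_distrib, sum_e_mul, e01, e_self]
  ring

/-! ### Integration -/

lemma mp_shear {a b : Fin (d + 3)} (hab : a ≠ b) (c : ℝ) (v : E d) :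
    MeasurePreserving (fun p : E d => fun i => p i + v i + e a i * (c * p b)) := by
  have h := (measurePreserving_add_right volume v).comp
    (Real.volume_preserving_transvectionStruct ⟨a, b, hab, c⟩)
  suffices h' : (fun p : E d => fun i => p i + v i + e a i * (c * p b)) = (fun x => x + v) ∘
      (toLin' (TransvectionStruct.toMatrix ⟨a, b, hab, c⟩)) by rw [h']; exact h
  funext p i
  simp only [Function.comp, TransvectionStruct.toMatrix, toLin'_apply, Matrix.transvection,
    Matrix.add_mulVec, Matrix.one_mulVec, Pi.add_apply, Matrix.single_mulVec, e,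
    Function.update_apply]
  split_ifs <;> simp; ring

lemma mp_left (u : E d) : MeasurePreserving (mul u) := by
  convert mp_shear ne12.symm (u 0) u using 1
  funext p i; simp only [mul]; ring

lemma mp_right (v : E d) : MeasurePreserving (fun p => mul p v) := by
  convert mp_shear ne02.symm (v 1) v using 1
  funext p i; simp only [mul]; ring

/-- left translation as a homeomorphism -/
def Lh (u : E d) : E d ≃ₜ E d where
  toEquiv := Lt u
  continuous_toFun := continuous_mul2.comp (continuous_const.prodMk continuous_id)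
  continuous_invFun := continuous_mul2.comp (continuous_const.prodMk continuous_id)

/-- right translation as a homeomorphism -/
def Rh (v : E d) : E d ≃ₜ E d where
  toFun p := mul p v
  invFun p := mul p (inv v)
  left_inv x := by simp only [mul_assoc', mul_inv', mul_zero']
  right_inv x := by simp only [mul_assoc', inv_mul', mul_zero']
  continuous_toFun := continuous_mul2.comp (continuous_id.prodMk continuous_const)
  continuous_invFun := continuous_mul2.comp (continuous_id.prodMk continuous_const)

lemma gam_countable (A : ℕ) : Countable (Gam (d := d) A) := by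
  have h : {u : E d | Lam A u}.Countable := by
    refine (Set.countable_univ_pi (s := fun _ => Set.range fun z : ℤ => (z : ℝ))
      fun _ => Set.countable_range _).mono ?_
    intro u hu i _
    obtain ⟨z, hz⟩ := hu.int i
    exact ⟨z, hz.symm⟩
  refine Set.Countable.to_subtype (s := ((Gam (d := d) A : Subgroup _) : Set _))
    ((h.image Lt).mono ?_)
  rintro _ ⟨u, hu, rfl⟩
  exact ⟨u, hu, rfl⟩

theorem int_right {A : ℕ} {u : E d → ℝ} (hu : Invt A u) (v : E d) :
    ∫ p in box A, u (mul p v) = ∫ p in box A, u p := by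
  have := gam_countable (d := d) A
  have : MeasurableConstSMul (Gam (d := d) A) (E d) := ⟨fun γ => by
    obtain ⟨w, -, hw⟩ := γ.2
    have : (fun x : E d => γ • x) = mul w := by
      funext x; change γ.1 x = _; rw [hw]; rfl
    rw [this]; exact (mp_left w).measurable⟩
  have : SMulInvariantMeasure (Gam (d := d) A) (E d) volume := ⟨fun γ s hs => by
    obtain ⟨w, -, hw⟩ := γ.2
    have : (fun x : E d => γ • x) = mul w := by
      funext x; change γ.1 x = _; rw [hw]; rfl
    rw [this]; exact (mp_left w).measure_preimage hs.nullMeasurableSet⟩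
  have key : ∀ w : E d,
      IsFundamentalDomain (Gam (d := d) A) ((fun p => mul p w) ⁻¹' box A) volume := by
    intro w
    refine IsFundamentalDomain.mk' ((mp_right w).measurable (box_meas A)).nullMeasurableSet
      fun x => ?_
    obtain ⟨γ, ⟨hγ, hx⟩, huniq⟩ := box_fund A (mul x w)
    have hc : ∀ γ ∈ Gam (d := d) A, mul (γ x) w = γ (mul x w) := by
      rintro _ ⟨a, -, rfl⟩; simp [mul_assoc']
    refine ⟨⟨γ, hγ⟩, ?_, fun δ hδ => Subtype.ext (huniq _ ⟨δ.2, ?_⟩)⟩
    · change mul (γ x) w ∈ box A
      rwa [hc γ hγ]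
    · rw [← hc _ δ.2]; exact hδ
  have h1 := (key (inv v)).setIntegral_eq (key 0) (f := u) (fun γ x => by
    obtain ⟨w, hw1, hw⟩ := γ.2
    change u (γ.1 x) = _
    rw [hw]; exact hu w hw1 x)
  have h2 := (mp_right v).setIntegral_preimage_emb (Rh v).measurableEmbedding u
    ((fun p => mul p (inv v)) ⁻¹' box A)
  rw [h1] at h2
  simpa [Set.preimage_preimage, mul_assoc', mul_inv'] using h2

lemma intOn {A : ℕ} {u : E d → ℝ} (hu : Continuous u) : IntegrableOn u (box A) :=
  (hu.continuousOn.integrableOn_compact (cbox_compact A)).mono_set (box_sub A)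

lemma swap {A : ℕ} {Y : Type*} [MeasureSpace Y] [TopologicalSpace Y] [BorelSpace Y] [T2Space Y]
    [SecondCountableTopology Y] [IsFiniteMeasureOnCompacts (volume : Measure Y)]
    [SFinite (volume : Measure Y)] {K K' : Set Y} (hK : IsCompact K') (hKK : K ⊆ K')
    {H : E d → Y → ℝ} (hH : Continuous (Function.uncurry H)) :
    ∫ p in box A, ∫ y in K, H p y = ∫ y in K, ∫ p in box A, H p y := by
  apply integral_integral_swap
  rw [Measure.prod_restrict]
  exact (hH.continuousOn.integrableOn_compact ((cbox_compact A).prod hK)).mono_set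
    (Set.prod_mono (box_sub A) hKK)

lemma continuous_path (v : E d) : Continuous fun z : E d × ℝ => mul z.1 (z.2 • v) :=
  continuous_mul2.comp (continuous_fst.prodMk (continuous_snd.smul continuous_const))

theorem int_X {A : ℕ} {u : E d → ℝ} (hu : Invt A u) (hs : ContDiff ℝ ∞ u) (i : Fin (d + 3)) :
    ∫ p in box A, X i u p = 0 := by
  have hd : Differentiable ℝ u := hs.differentiable (by simp)
  have hc : Continuous (X i u) := (contDiff_X hs i).continuous
  have h1 : ∀ p, ∫ t in Ioc (0 : ℝ) 1, X i u (mul p (t • e i)) = u (mul p (e i)) - u p := by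
    intro p
    rw [← intervalIntegral.integral_of_le zero_le_one,
      intervalIntegral.integral_eq_sub_of_hasDerivAt (fun t _ => hasDerivAt_X hd p i t)
        ((hc.comp ((continuous_path (e i)).comp
          (continuous_const.prodMk continuous_id))).intervalIntegrable _ _)]
    simp
  have h2 := swap (A := A) isCompact_Icc (Ioc_subset_Icc_self (a := (0 : ℝ)) (b := 1))
    (H := fun p t => X i u (mul p (t • e i))) (hc.comp (continuous_path (e i)))
  simp only [h1, int_right (hu.X hd i)] at h2
  rw [integral_sub (f := fun p => u (mul p (e i)))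
    (intOn (hs.continuous.comp (Rh (e i)).continuous)) (intOn hs.continuous),
    int_right hu] at h2
  simpa using h2.symm

end Pool.Agent.P.MP_1b44ce_gt
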