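import Pool.Agent.P.MP_1b44ce_gt.Mfd

/-! A uniform lower bound for the injectivity radius of `HM d A`. -/

namespace Pool.Agent.P.MP_1b44ce_gt

open MeasureTheory Matrix Set
open scoped ContDiff

variable {d : ℕ}

lemma lip {f f' : ℝ → ℝ} {B : ℝ} (h : ∀ t, HasDerivAt f (f' t) t)
    (hB : ∀ t ∈ Icc (0 : ℝ) 1, |f' t| ≤ B) {s t : ℝ} (hs : s ∈ Icc (0 : ℝ) 1)
    (ht : t ∈ Icc (0 : ℝ) 1) : |f t - f s| ≤ B := by
  have h1 := (convex_Icc (0 : ℝ) 1).norm_image_sub_le_of_norm_hasDerivWithin_le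
    (f := f) (f' := f') (C := B) (fun x _ => (h x).hasDerivWithinAt) hB hs ht
  have hB0 : 0 ≤ B := (abs_nonneg _).trans (hB 0 ⟨le_rfl, zero_le_one⟩)
  have h2 : ‖t - s‖ ≤ 1 := by
    rw [Real.norm_eq_abs, abs_le]; constructor <;> linarith [hs.1, hs.2, ht.1, ht.2]
  calc |f t - f s| ≤ B * ‖t - s‖ := h1
    _ ≤ B * 1 := by gcongr
    _ = B := mul_one B

lemma rolle {f f' : ℝ → ℝ} (h : ∀ t, HasDerivAt f (f' t) t) (h01 : f 0 = f 1) :
    ∃ τ ∈ Icc (0 : ℝ) 1, f' τ = 0 := by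
  obtain ⟨τ, hτ, h0⟩ := exists_hasDerivAt_eq_zero zero_lt_one
    (fun t _ => (h t).continuousAt.continuousWithinAt) h01 (fun t _ => h t)
  exact ⟨τ, Ioo_subset_Icc_self hτ, h0⟩

lemma const_of {f : ℝ → ℝ} (h : ∀ t, HasDerivAt f 0 t) (t : ℝ) : f t = f 0 :=
  is_const_of_deriv_eq_zero (fun t => (h t).differentiableAt) (fun t => (h t).deriv) t 0

/-- The geodesic equations in the left invariant frame. -/
structure Geo (c v : ℝ → E d) (w r : ℝ) : Prop where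
  pos : ∀ t k, HasDerivAt (fun t => c t k) (v t k) t
  a : ∀ t, HasDerivAt (fun t => v t 0) (-w * v t 1) t
  b : ∀ t, HasDerivAt (fun t => v t 1) (w * v t 0) t
  z : ∀ t, v t 2 = w + c t 0 * v t 1
  o : ∀ k, k ≠ 0 → k ≠ 1 → k ≠ 2 → ∀ t, v t k = v 0 k
  hw : |w| < r
  h : ∀ k, k ≠ 2 → ∀ t, |v t k| < r

lemma geo_of {A : ℕ} {c v : ℝ → E d} (h : (HM d A).IsGeodesic c v) {r : ℝ}
    (hr : √(v 0 ⬝ᵥ ((HM d A).g (c 0) *ᵥ v 0)) < r) : ∃ w, Geo c v w r := by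
  have hp : ∀ t k, HasDerivAt (fun t => c t k) (v t k) t := fun t k => hasDerivAt_pi.1 (h t).1 k
  have hv : ∀ t k, HasDerivAt (fun t => v t k) (e 0 k * (-(v t 2 - c t 0 * v t 1) * v t 1)
      + e 1 k * ((v t 2 - c t 0 * v t 1) * v t 0)
      + e 2 k * (v t 0 * v t 1 + c t 0 * ((v t 2 - c t 0 * v t 1) * v t 0))) t := by
    intro t k
    have := hasDerivAt_pi.1 (h t).2 k
    rwa [geo_acc _ rfl] at this
  have hW : ∀ t, v t 2 - c t 0 * v t 1 = v 0 2 - c 0 0 * v 0 1 := by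
    refine const_of (f := fun t => v t 2 - c t 0 * v t 1) fun t => ?_
    refine HasDerivAt.congr_deriv ((hv t 2).sub ((hp t 0).mul (hv t 1))) ?_
    simp
  set w := v 0 2 - c 0 0 * v 0 1 with hw
  have ha : ∀ t, HasDerivAt (fun t => v t 0) (-w * v t 1) t := fun t => by
    simpa [hW t] using hv t 0
  have hb : ∀ t, HasDerivAt (fun t => v t 1) (w * v t 0) t := fun t => by
    simpa [hW t] using hv t 1
  have ho : ∀ k, k ≠ 0 → k ≠ 1 → k ≠ 2 → ∀ t, v t k = v 0 k := fun k h0 h1 h2 =>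
    const_of (f := fun t => v t k) fun t => by simpa [e_ne h0, e_ne h1, e_ne h2] using hv t k
  have hab : ∀ t, v t 0 ^ 2 + v t 1 ^ 2 = v 0 0 ^ 2 + v 0 1 ^ 2 := by
    refine const_of (f := fun t => v t 0 ^ 2 + v t 1 ^ 2) fun t => ?_
    refine HasDerivAt.congr_deriv (((ha t).pow 2).add ((hb t).pow 2)) ?_
    simp; ring
  have hr0 : 0 < r := (Real.sqrt_nonneg _).trans_lt hr
  have hg : (HM d A).g = gH := rfl
  rw [hg, gH_form', Real.sqrt_lt' hr0] at hr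
  have h1 : ∀ k, |fr (c 0) (v 0) k| < r := fun k => by
    apply abs_lt_of_sq_lt_sq _ hr0.le
    refine lt_of_le_of_lt ?_ hr
    rw [sq]
    exact Finset.single_le_sum (f := fun i => fr (c 0) (v 0) i * fr (c 0) (v 0) i)
      (fun i _ => mul_self_nonneg _) (Finset.mem_univ k)
  have h2 : v 0 0 ^ 2 + v 0 1 ^ 2 < r ^ 2 := by
    refine lt_of_le_of_lt ?_ hr
    have : fr (c 0) (v 0) 0 * fr (c 0) (v 0) 0 + fr (c 0) (v 0) 1 * fr (c 0) (v 0) 1 ≤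
        ∑ i, fr (c 0) (v 0) i * fr (c 0) (v 0) i := by
      rw [← Finset.sum_pair (f := fun i => fr (c 0) (v 0) i * fr (c 0) (v 0) i) ne01]
      exact Finset.sum_le_sum_of_subset_of_nonneg (Finset.subset_univ _)
        (fun i _ _ => mul_self_nonneg _)
    simpa [fr, sq] using this
  refine ⟨w, hp, ha, hb, fun t => by rw [← hW t]; ring, ho, by simpa [fr] using h1 2, ?_⟩
  intro k h2' t
  by_cases h0 : k = 0
  · subst h0
    apply abs_lt_of_sq_lt_sq _ hr0.le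
    nlinarith [hab t, sq_nonneg (v t 1)]
  by_cases h1' : k = 1
  · subst h1'
    apply abs_lt_of_sq_lt_sq _ hr0.le
    nlinarith [hab t, sq_nonneg (v t 0)]
  rw [ho k h0 h1' h2' t]
  simpa [fr, e_ne h2'] using h1 k

lemma int_zero {y : ℝ} (h : ∃ z : ℤ, y = z) (h1 : |y| < 1) : y = 0 := by
  obtain ⟨z, rfl⟩ := h
  have : |z| < 1 := by exact_mod_cast h1
  rw [Int.abs_lt_one_iff.1 this]; simp

lemma abs_mul_le' {a b A B : ℝ} (ha : |a| ≤ A) (hb : |b| ≤ B) : |a * b| ≤ A * B := by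
  rw [abs_mul]
  exact mul_le_mul ha hb (abs_nonneg _) ((abs_nonneg _).trans ha)

lemma geo_inj {A : ℕ} {c₁ v₁ c₂ v₂ : ℝ → E d} {w₁ w₂ : ℝ} (g₁ : Geo c₁ v₁ w₁ (1 / 4))
    (g₂ : Geo c₂ v₂ w₂ (1 / 4)) (h0 : c₁ 0 = c₂ 0) {u : E d} (hu : Lam A u)
    (h1 : mul u (c₁ 1) = c₂ 1) : v₁ 0 = v₂ 0 := by
  have I0 : (0 : ℝ) ∈ Icc (0 : ℝ) 1 := ⟨le_rfl, zero_le_one⟩
  have I1 : (1 : ℝ) ∈ Icc (0 : ℝ) 1 := ⟨zero_le_one, le_rfl⟩
  have m₁ : ∀ k, k ≠ 2 → ∀ t ∈ Icc (0 : ℝ) 1, |c₁ t k - c₁ 0 k| ≤ 1 / 4 := fun k hk t ht =>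
    lip (fun t => g₁.pos t k) (fun t _ => (g₁.h k hk t).le) I0 ht
  have m₂ : ∀ k, k ≠ 2 → ∀ t ∈ Icc (0 : ℝ) 1, |c₂ t k - c₁ 0 k| ≤ 1 / 4 := fun k hk t ht => by
    rw [h0]; exact lip (fun t => g₂.pos t k) (fun t _ => (g₂.h k hk t).le) I0 ht
  have hu1 : ∀ k, k ≠ 2 → u k = 0 := by
    intro k hk
    apply int_zero (hu.int k)
    have e1 := congrFun h1 k
    simp only [mul, e_ne hk, zero_mul, add_zero] at e1
    have a1 := abs_le.1 (m₁ k hk 1 I1)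
    have a2 := abs_le.1 (m₂ k hk 1 I1)
    rw [abs_lt]; constructor <;> linarith [a1.1, a1.2, a2.1, a2.2]
  have he : ∀ k, k ≠ 2 → c₁ 1 k = c₂ 1 k := by
    intro k hk
    have e1 := congrFun h1 k
    simpa [mul, e_ne hk, hu1 k hk] using e1
  have he2 : u 2 + c₁ 1 2 = c₂ 1 2 := by
    have e1 := congrFun h1 2
    simpa [mul, hu1 0 ne02] using e1
  -- the vertical displacement
  have hψ : ∀ t, HasDerivAt (fun t => (c₁ t 2 - c₂ t 2) - c₁ 0 0 * (c₁ t 1 - c₂ t 1))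
      ((w₁ - w₂) + ((c₁ t 0 - c₁ 0 0) * v₁ t 1 - (c₂ t 0 - c₁ 0 0) * v₂ t 1)) t := by
    intro t
    refine HasDerivAt.congr_deriv (((g₁.pos t 2).sub (g₂.pos t 2)).sub
      (((g₁.pos t 1).sub (g₂.pos t 1)).const_mul (c₁ 0 0))) ?_
    rw [g₁.z, g₂.z]; ring
  have hw₁ := abs_lt.1 g₁.hw
  have hw₂ := abs_lt.1 g₂.hw
  have hu2 : u 2 = 0 := by
    apply int_zero (hu.int 2)
    have := lip hψ (B := 5 / 8) (fun t ht => by
      have a1 := abs_le.1 (abs_mul_le' (m₁ 0 ne02 t ht) (g₁.h 1 ne12 t).le)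
      have a2 := abs_le.1 (abs_mul_le' (m₂ 0 ne02 t ht) (g₂.h 1 ne12 t).le)
      rw [abs_le]; constructor <;> linarith [a1.1, a1.2, a2.1, a2.2]) I0 I1
    rw [← he2, he 1 ne12, h0] at this
    have a := abs_le.1 this
    rw [abs_lt]; constructor <;> linarith [a.1, a.2]
  rw [hu2, zero_add] at he2
  -- the maximum of the velocity difference
  have hcont : Continuous fun t => max |v₁ t 0 - v₂ t 0| |v₁ t 1 - v₂ t 1| := by
    have c1 : Continuous fun t => v₁ t 0 :=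
      continuous_iff_continuousAt.2 fun t => (g₁.a t).continuousAt
    have c2 : Continuous fun t => v₂ t 0 :=
      continuous_iff_continuousAt.2 fun t => (g₂.a t).continuousAt
    have c3 : Continuous fun t => v₁ t 1 :=
      continuous_iff_continuousAt.2 fun t => (g₁.b t).continuousAt
    have c4 : Continuous fun t => v₂ t 1 :=
      continuous_iff_continuousAt.2 fun t => (g₂.b t).continuousAt
    fun_prop
  obtain ⟨t₀, ht₀, hmax⟩ := isCompact_Icc.exists_isMaxOn ⟨0, I0⟩ hcont.continuousOn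
  set S := max |v₁ t₀ 0 - v₂ t₀ 0| |v₁ t₀ 1 - v₂ t₀ 1| with hS
  have Sa : ∀ t ∈ Icc (0 : ℝ) 1, |v₁ t 0 - v₂ t 0| ≤ S := fun t ht =>
    (le_max_left _ _).trans (hmax ht)
  have Sb : ∀ t ∈ Icc (0 : ℝ) 1, |v₁ t 1 - v₂ t 1| ≤ S := fun t ht =>
    (le_max_right _ _).trans (hmax ht)
  set D := |w₁ - w₂| with hD
  have hD0 : 0 ≤ D := abs_nonneg _
  have hS0 : 0 ≤ S := (abs_nonneg _).trans (Sa 0 I0)
  have key : ∀ {p q : ℝ}, |p - q| ≤ S → |q| ≤ 1 / 4 → |w₁ * p - w₂ * q| ≤ (S + D) / 4 := by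
    intro p q hp hq
    have a1 := abs_le.1 (abs_mul_le' g₁.hw.le hp)
    have a2 := abs_le.1 (abs_mul_le' (le_refl D) hq)
    rw [abs_le]; constructor <;> nlinarith [a1.1, a1.2, a2.1, a2.2]
  have Ba : |v₁ t₀ 0 - v₂ t₀ 0| ≤ (S + D) / 4 := by
    obtain ⟨τ, hτ, hτ0⟩ := rolle (fun t => (g₁.pos t 0).sub (g₂.pos t 0))
      (by simp [h0, he 0 ne02])
    have := lip (fun t => (g₁.a t).sub (g₂.a t)) (B := (S + D) / 4) (fun t ht => by
      have := key (Sb t ht) (g₂.h 1 ne12 t).le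
      rw [← abs_neg]; convert this using 2; ring) hτ ht₀
    simpa [hτ0] using this
  have Bb : |v₁ t₀ 1 - v₂ t₀ 1| ≤ (S + D) / 4 := by
    obtain ⟨τ, hτ, hτ0⟩ := rolle (fun t => (g₁.pos t 1).sub (g₂.pos t 1))
      (by simp [h0, he 1 ne12])
    have := lip (fun t => (g₁.b t).sub (g₂.b t)) (B := (S + D) / 4) (fun t ht =>
      key (Sa t ht) (g₂.h 0 ne02 t).le) hτ ht₀
    simpa [hτ0] using this
  have B1 : S ≤ (S + D) / 4 := max_le Ba Bb
  have B2 : D ≤ S / 2 := by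
    obtain ⟨τ, hτ, hτ0⟩ := rolle hψ (by simp [h0, he 1 ne12, he2])
    have a0 : |c₁ τ 0 - c₂ τ 0| ≤ S := by
      have := lip (fun t => (g₁.pos t 0).sub (g₂.pos t 0)) Sa I0 hτ
      simpa [h0] using this
    have a1 := abs_le.1 (abs_mul_le' a0 (g₁.h 1 ne12 τ).le)
    have a2 := abs_le.1 (abs_mul_le' (m₂ 0 ne02 τ hτ) (Sb τ hτ))
    rw [hD, abs_le]; constructor <;> nlinarith [a1.1, a1.2, a2.1, a2.2]
  have hS' : S = 0 := by linarith
  have hD' : D = 0 := by linarith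
  have ea : v₁ 0 0 = v₂ 0 0 := by
    have := Sa 0 I0
    rw [hS'] at this
    exact sub_eq_zero.1 (abs_nonpos_iff.1 this)
  have eb : v₁ 0 1 = v₂ 0 1 := by
    have := Sb 0 I0
    rw [hS'] at this
    exact sub_eq_zero.1 (abs_nonpos_iff.1 this)
  have ew : w₁ = w₂ := sub_eq_zero.1 (abs_eq_zero.1 hD')
  funext k
  by_cases k0 : k = 0
  · rw [k0, ea]
  by_cases k1 : k = 1
  · rw [k1, eb]
  by_cases k2 : k = 2
  · rw [k2, g₁.z, g₂.z, ew, eb, h0]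
  obtain ⟨τ, hτ, hτ0⟩ := rolle (fun t => (g₁.pos t k).sub (g₂.pos t k)) (by simp [h0, he k k2])
  rw [g₁.o k k0 k1 k2, g₂.o k k0 k1 k2] at hτ0
  linarith

lemma geo_fibre (A : ℕ) (s : ℝ) :
    (HM d A).IsGeodesic (fun t i => e 2 i * (s * t)) (fun _ i => e 2 i * s) := by
  intro t
  constructor
  · refine hasDerivAt_pi.2 fun i => ?_
    simpa using ((hasDerivAt_id t).const_mul s).const_mul (e 2 i)
  · refine hasDerivAt_pi.2 fun i => ?_
    rw [geo_acc _ rfl]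
    simpa using hasDerivAt_const t (e 2 i * s)

theorem inj_ge (A : ℕ) : 1 / 4 ≤ (HM d A).inj := by
  refine le_csSup ⟨1, ?_⟩ ?_
  · intro r hr
    by_contra hlt
    push Not at hlt
    have hg : (HM d A).g = gH := rfl
    have := hr _ _ _ _ (geo_fibre A 1) (geo_fibre A 0) (by funext i; simp) (by
        rw [hg, gH_form]; simpa [sum_e_mul] using hlt) (by
        rw [hg, gH_form]; simp; linarith) ⟨Lt (fun i => 0 + e 2 i * ((-1 : ℤ) : ℝ)),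
          ⟨_, Lam.shift (u := 0) (fun i => ⟨0, by simp⟩) (-1), rfl⟩, by
          funext i; simp [mul]⟩
    simpa using congrFun this 2
  · rintro c₁ v₁ c₂ v₂ g₁ g₂ h0 r₁ r₂ ⟨_, ⟨u, hu, rfl⟩, h1⟩
    obtain ⟨w₁, G₁⟩ := geo_of g₁ r₁
    obtain ⟨w₂, G₂⟩ := geo_of g₂ r₂
    exact geo_inj G₁ G₂ h0 hu h1

end Pool.Agent.P.MP_1b44ce_gt
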