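import Pool.Agent.P.MP_1b44ce_gt.Defs

/-! The Heisenberg group times a Euclidean factor: group law, metric, lattice. -/

namespace Pool.Agent.P.MP_1b44ce_gt

open MeasureTheory Matrix
open scoped ContDiff

abbrev E (d : ℕ) := Fin (d + 3) → ℝ

variable {d : ℕ}

/-- indicator of the index `a` -/
def e (a i : Fin (d + 3)) : ℝ := if i = a then 1 else 0

@[simp] lemma e_self (a : Fin (d + 3)) : e a a = 1 := by simp [e]
lemma e_ne {a i : Fin (d + 3)} (h : i ≠ a) : e a i = 0 := by simp [e, h]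
lemma ne01 : (0 : Fin (d + 3)) ≠ 1 := by simp
lemma val2 : ((2 : Fin (d + 3)) : ℕ) = 2 := rfl
lemma ne02 : (0 : Fin (d + 3)) ≠ 2 := by
  intro h; have := congrArg Fin.val h; rw [val2] at this; simp at this
lemma ne12 : (1 : Fin (d + 3)) ≠ 2 := by
  intro h; have := congrArg Fin.val h; rw [val2] at this; simp at this
@[simp] lemma e01 : e (0 : Fin (d + 3)) 1 = 0 := e_ne ne01.symm
@[simp] lemma e02 : e (0 : Fin (d + 3)) 2 = 0 := e_ne ne02.symm
@[simp] lemma e10 : e (1 : Fin (d + 3)) 0 = 0 := e_ne ne01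
@[simp] lemma e12 : e (1 : Fin (d + 3)) 2 = 0 := e_ne ne12.symm
@[simp] lemma e20 : e (2 : Fin (d + 3)) 0 = 0 := e_ne ne02
@[simp] lemma e21 : e (2 : Fin (d + 3)) 1 = 0 := e_ne ne12

lemma sum_e_mul (a : Fin (d + 3)) (f : Fin (d + 3) → ℝ) : ∑ i, e a i * f i = f a := by
  simp [e]

lemma sum_mul_e (a : Fin (d + 3)) (f : Fin (d + 3) → ℝ) : ∑ i, f i * e a i = f a := by
  simp [e]

lemma e_comm (a i : Fin (d + 3)) : e a i = e i a := by simp [e, eq_comm]

/-- a sum over all indices of a function supported on `0, 1, 2` -/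
lemma sum3 (f : Fin (d + 3) → ℝ) (h : ∀ i, i ≠ 0 → i ≠ 1 → i ≠ 2 → f i = 0) :
    ∑ i, f i = f 0 + f 1 + f 2 := by
  have : ∀ i, f i = e 0 i * f i + e 1 i * f i + e 2 i * f i := by
    intro i
    by_cases h0 : i = 0
    · subst h0; simp
    by_cases h1 : i = 1
    · subst h1; simp
    by_cases h2 : i = 2
    · subst h2; simp
    simp [h i h0 h1 h2]
  rw [Finset.sum_congr rfl (fun i _ => this i)]
  simp only [Finset.sum_add_distrib, sum_e_mul]

/-- group law -/
def mul (p q : E d) : E d := fun i => p i + q i + e 2 i * (p 0 * q 1)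

def inv (p : E d) : E d := fun i => -p i + e 2 i * (p 0 * p 1)

lemma mul_assoc' (p q r : E d) : mul (mul p q) r = mul p (mul q r) := by
  funext i; simp [mul]; ring

lemma mul_inv' (p : E d) : mul p (inv p) = 0 := by
  funext i; simp [mul, inv]

lemma inv_mul' (p : E d) : mul (inv p) p = 0 := by
  funext i; simp [mul, inv]

@[simp] lemma mul_zero' (p : E d) : mul p 0 = p := by funext i; simp [mul]
@[simp] lemma zero_mul' (p : E d) : mul 0 p = p := by funext i; simp [mul]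

/-- left translation -/
def Lt (u : E d) : Equiv.Perm (E d) where
  toFun := mul u
  invFun := mul (inv u)
  left_inv x := by rw [← mul_assoc', inv_mul', zero_mul']
  right_inv x := by rw [← mul_assoc', mul_inv', zero_mul']

@[simp] lemma Lt_apply (u x : E d) : Lt u x = mul u x := rfl

/-- the metric `dx² + dy² + (dz - x dy)² + ∑ dtᵢ²` -/
def gH (x : E d) : Matrix (Fin (d + 3)) (Fin (d + 3)) ℝ := fun i j =>
  e i j + (x 0) ^ 2 * (e 1 i * e 1 j) - x 0 * (e 1 i * e 2 j + e 2 i * e 1 j)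

def giH (x : E d) : Matrix (Fin (d + 3)) (Fin (d + 3)) ℝ := fun i j =>
  e i j + x 0 * (e 1 i * e 2 j + e 2 i * e 1 j) + (x 0) ^ 2 * (e 2 i * e 2 j)

lemma gH_mulVec (x v : E d) (i : Fin (d + 3)) : (gH x *ᵥ v) i =
    v i + (x 0) ^ 2 * e 1 i * v 1 - x 0 * (e 1 i * v 2 + e 2 i * v 1) := by
  simp only [mulVec, dotProduct, gH]
  have : ∀ j, (e i j + (x 0) ^ 2 * (e 1 i * e 1 j) - x 0 * (e 1 i * e 2 j + e 2 i * e 1 j)) * v j
      = e i j * v j + e 1 j * ((x 0) ^ 2 * e 1 i * v j) - (e 2 j * (x 0 * e 1 i * v j)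
        + e 1 j * (x 0 * e 2 i * v j)) := by intro j; ring
  simp only [this, Finset.sum_add_distrib, Finset.sum_sub_distrib, sum_e_mul]
  ring

lemma gH_form (x v w : E d) : v ⬝ᵥ (gH x *ᵥ w) =
    ∑ i, v i * w i + (x 0) ^ 2 * (v 1 * w 1) - x 0 * (v 1 * w 2 + v 2 * w 1) := by
  simp only [dotProduct, gH_mulVec]
  have : ∀ i, v i * (w i + (x 0) ^ 2 * e 1 i * w 1 - x 0 * (e 1 i * w 2 + e 2 i * w 1))
      = v i * w i + e 1 i * ((x 0) ^ 2 * v i * w 1) - (e 1 i * (x 0 * v i * w 2)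
        + e 2 i * (x 0 * v i * w 1)) := by intro i; ring
  simp only [this, Finset.sum_add_distrib, Finset.sum_sub_distrib, sum_e_mul]
  ring

/-- components of `v` in the orthonormal frame at `x` -/
def fr (x v : E d) : E d := fun i => v i - e 2 i * (x 0 * v 1)

lemma gH_form' (x v w : E d) : v ⬝ᵥ (gH x *ᵥ w) = ∑ i, fr x v i * fr x w i := by
  rw [gH_form]
  have : ∀ i, fr x v i * fr x w i = v i * w i - (e 2 i * (v i * x 0 * w 1)
      + e 2 i * (w i * x 0 * v 1)) + e 2 i * (e 2 i * (x 0 * v 1 * (x 0 * w 1))) := by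
    intro i; simp only [fr]; ring
  simp only [this, Finset.sum_add_distrib, Finset.sum_sub_distrib, sum_e_mul, e_self]
  ring

lemma fr_eq_zero {x v : E d} (h : fr x v = 0) : v = 0 := by
  have h1 : v 1 = 0 := by simpa [fr] using congrFun h 1
  funext i
  simpa [fr, h1] using congrFun h i

lemma gH_symm (x : E d) (i j : Fin (d + 3)) : gH x i j = gH x j i := by
  simp only [gH, e_comm i j]; ring

lemma gH_pos (x : E d) : (gH x).PosDef := by
  rw [Matrix.posDef_iff_dotProduct_mulVec]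
  refine ⟨?_, ?_⟩
  · ext i j; simp [gH_symm x j i]
  · intro v hv
    simp only [star_trivial]
    rw [gH_form']
    have h1 : fr x v ≠ 0 := fun h => hv (fr_eq_zero h)
    obtain ⟨i, hi⟩ := Function.ne_iff.1 h1
    exact Finset.sum_pos' (fun j _ => mul_self_nonneg _)
      ⟨i, Finset.mem_univ _, mul_self_pos.2 hi⟩

lemma gH_mul_giH (x : E d) : gH x * giH x = 1 := by
  ext i j
  have : (gH x * giH x) i j = (gH x *ᵥ (fun k => giH x k j)) i := rfl
  rw [this, gH_mulVec]
  simp only [giH, e_self, e12, e21, Matrix.one_apply]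
  have h : (if i = j then (1 : ℝ) else 0) = e i j := by simp [e, eq_comm]
  rw [h]
  ring

lemma gH_inv (x : E d) : (gH x)⁻¹ = giH x := Matrix.inv_eq_right_inv (gH_mul_giH x)

lemma gH_det (x : E d) : (gH x).det = 1 := by
  have h : gH x = (Matrix.transvection 2 1 (-x 0))ᵀ * Matrix.transvection 2 1 (-x 0) := by
    ext i j
    have h1 : ∀ k l : Fin (d + 3), Matrix.transvection (2 : Fin (d + 3)) 1 (-x 0) k l
        = e l k - e 2 k * (x 0 * e 1 l) := by
      intro k l
      simp only [Matrix.transvection, Matrix.add_apply, Matrix.one_apply, Matrix.single_apply, e]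
      by_cases h1 : k = l <;> by_cases h2 : k = 2 <;> by_cases h3 : l = 1 <;>
        simp_all [eq_comm, sub_eq_add_neg]
    simp only [Matrix.mul_apply, Matrix.transpose_apply, h1]
    have : ∀ k, (e i k - e 2 k * (x 0 * e 1 i)) * (e j k - e 2 k * (x 0 * e 1 j)) =
        e i k * e j k - (e 2 k * (e i k * x 0 * e 1 j) + e 2 k * (e j k * x 0 * e 1 i))
        + e 2 k * (e 2 k * (x 0 * e 1 i * (x 0 * e 1 j))) := by intro k; ring
    simp only [this, Finset.sum_add_distrib, Finset.sum_sub_distrib, sum_e_mul, e_self, gH]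
    rw [e_comm j i, e_comm i 2, e_comm j 2]
    ring
  rw [h, Matrix.det_mul, Matrix.det_transpose, Matrix.det_transvection_of_ne _ _ ne12.symm]
  simp

lemma pd_quad (l : Fin (d + 3)) (a b c : ℝ) (x : E d) :
    pd l (fun y : E d => a + b * y 0 + c * (y 0) ^ 2) x = e 0 l * (b + 2 * c * x 0) := by
  have h0 : HasFDerivAt (fun y : E d => y 0) (ContinuousLinearMap.proj (R := ℝ) (0 : Fin (d + 3))
    : E d →L[ℝ] ℝ) x := (ContinuousLinearMap.proj (R := ℝ) (φ := fun _ : Fin (d + 3) => ℝ)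
      0).hasFDerivAt
  have h := ((h0.const_mul b).const_add a).add ((h0.pow 2).const_mul c)
  have h' : HasFDerivAt (fun y : E d => a + b * y 0 + c * (y 0) ^ 2) _ x := h
  rw [pd, h'.fderiv]
  simp [Pi.single_apply, e, eq_comm]
  split_ifs <;> ring

/-- Christoffel symbols of the Heisenberg metric: coefficients in `x 0`. -/
noncomputable def cA (k i j : Fin (d + 3)) : ℝ := (1 / 2) *
  (e 0 i * (-(e 1 j * e 2 k) - e 2 j * e 1 k) + e 0 j * (-(e 1 i * e 2 k) - e 2 i * e 1 k)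
    + e 0 k * (e 1 i * e 2 j + e 2 i * e 1 j))
noncomputable def cB (k i j : Fin (d + 3)) : ℝ := (1 / 2) *
  (e 0 i * (e 1 j * e 1 k - e 2 j * e 2 k) + e 0 j * (e 1 i * e 1 k - e 2 i * e 2 k)
    - e 0 k * (2 * e 1 i * e 1 j))
noncomputable def cC (k i j : Fin (d + 3)) : ℝ := (1 / 2) *
  (e 0 i * (e 1 j * e 2 k) + e 0 j * (e 1 i * e 2 k))

lemma pd_gH (l i j : Fin (d + 3)) (x : E d) : pd l (fun y => gH y i j) x =
    e 0 l * (2 * x 0 * (e 1 i * e 1 j) - (e 1 i * e 2 j + e 2 i * e 1 j)) := by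
  have : (fun y : E d => gH y i j) = fun y => e i j + (-(e 1 i * e 2 j + e 2 i * e 1 j)) * y 0
      + (e 1 i * e 1 j) * (y 0) ^ 2 := by
    funext y; simp only [gH]; ring
  rw [this, pd_quad]; ring

section
variable (M : QuotMfd (d + 3)) (hM : M.g = gH)
include hM

lemma chr_eq (k i j : Fin (d + 3)) :
    M.chr k i j = fun x => cA k i j + cB k i j * x 0 + cC k i j * (x 0) ^ 2 := by
  funext x
  simp only [QuotMfd.chr, hM, gH_inv, pd_gH]
  rw [sum3]
  · simp only [giH, cA, cB, cC, e_self, e01, e02, e10, e12, e20, e21, e_comm k 0, e_comm k 1,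
      e_comm k 2]
    ring
  · intro l h0 h1 h2
    simp [e_ne h0, e_ne h1, e_ne h2]

lemma ric_eq (i j : Fin (d + 3)) (x : E d) : M.ric i j x =
    -(1 / 2) * (e 0 i * e 0 j) - (1 / 2) * (e 1 i * e 1 j)
      + (1 / 2) * ((e 2 i - x 0 * e 1 i) * (e 2 j - x 0 * e 1 j)) := by
  simp only [QuotMfd.ric, chr_eq M hM, pd_quad]
  rw [sum3]
  · rw [sum3, sum3, sum3]
    · simp only [cA, cB, cC, e_self, e01, e02, e10, e12, e20, e21]
      ring
    all_goals
      intro l h0 h1 h2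
      simp [cA, cB, cC, e_ne h0, e_ne h1, e_ne h2]
  · intro k h0 h1 h2
    simp [cA, cB, cC, e_ne h0, e_ne h1, e_ne h2]

lemma ricGe : M.RicGe 1 := by
  intro x v
  have h1 : ∑ i, ∑ j, M.ric i j x * v i * v j =
      -(1 / 2) * (v 0) ^ 2 - (1 / 2) * (v 1) ^ 2 + (1 / 2) * (v 2 - x 0 * v 1) ^ 2 := by
    simp only [ric_eq M hM]
    rw [sum3, sum3, sum3, sum3]
    · simp only [e_self, e01, e02, e10, e12, e20, e21]
      ring
    all_goals
      intro l h0 h1 h2
      simp [e_ne h0, e_ne h1, e_ne h2]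
  rw [h1, hM, gH_form']
  have h2 : fr x v 0 * fr x v 0 + fr x v 1 * fr x v 1 ≤ ∑ i, fr x v i * fr x v i := by
    rw [← Finset.sum_pair (f := fun i => fr x v i * fr x v i) ne01]
    exact Finset.sum_le_sum_of_subset_of_nonneg (Finset.subset_univ _)
      (fun i _ _ => mul_self_nonneg _)
  have h3 : fr x v 0 = v 0 := by simp [fr]
  have h4 : fr x v 1 = v 1 := by simp [fr]
  rw [h3, h4] at h2
  have hd : (0 : ℝ) ≤ d := Nat.cast_nonneg d
  push_cast
  nlinarith [sq_nonneg (v 2 - x 0 * v 1), sq_nonneg (v 0), sq_nonneg (v 1)]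

lemma geo_acc (x v : E d) (k : Fin (d + 3)) : -∑ i, ∑ j, M.chr k i j x * v i * v j =
    e 0 k * (-(v 2 - x 0 * v 1) * v 1) + e 1 k * ((v 2 - x 0 * v 1) * v 0)
      + e 2 k * (v 0 * v 1 + x 0 * ((v 2 - x 0 * v 1) * v 0)) := by
  simp only [chr_eq M hM]
  rw [sum3, sum3, sum3, sum3]
  · simp only [cA, cB, cC, e_self, e01, e02, e10, e12, e20, e21]
    ring
  all_goals
    intro l h0 h1 h2
    simp [cA, cB, cC, e_ne h0, e_ne h1, e_ne h2]

lemma lap_eq (f : E d → ℝ) (x : E d) : M.lap f x =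
    -(∑ i, pd i (pd i f) x + x 0 * (pd 1 (pd 2 f) x + pd 2 (pd 1 f) x)
      + (x 0) ^ 2 * pd 2 (pd 2 f) x) := by
  have h1 : ∀ k, ∑ i, ∑ j, giH x i j * M.chr k i j x = 0 := by
    intro k
    simp only [chr_eq M hM]
    rw [sum3, sum3, sum3, sum3]
    · simp only [giH, cA, cB, cC, e_self, e01, e02, e10, e12, e20, e21]
      ring
    all_goals
      intro l h0 h1 h2
      simp [giH, cA, cB, cC, e_ne h0, e_ne h1, e_ne h2]
  have h2 : ∑ i, ∑ j, giH x i j * ∑ k, M.chr k i j x * pd k f x = 0 := by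
    calc ∑ i, ∑ j, giH x i j * ∑ k, M.chr k i j x * pd k f x
        = ∑ i, ∑ j, ∑ k, giH x i j * M.chr k i j x * pd k f x := by
          simp only [Finset.mul_sum, mul_assoc]
      _ = ∑ i, ∑ k, ∑ j, giH x i j * M.chr k i j x * pd k f x :=
          Finset.sum_congr rfl fun i _ => Finset.sum_comm
      _ = ∑ k, ∑ i, ∑ j, giH x i j * M.chr k i j x * pd k f x := Finset.sum_comm
      _ = ∑ k, (∑ i, ∑ j, giH x i j * M.chr k i j x) * pd k f x := by
          simp only [Finset.sum_mul]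
      _ = 0 := by simp [h1]
  simp only [QuotMfd.lap, hM, gH_inv, mul_sub, Finset.sum_sub_distrib, h2, sub_zero]
  congr 1
  have : ∀ i j, giH x i j * pd i (pd j f) x = e i j * pd i (pd j f) x
      + (e 2 j * (e 1 i * (x 0 * pd i (pd j f) x)) + e 1 j * (e 2 i * (x 0 * pd i (pd j f) x)))
      + e 2 j * (e 2 i * ((x 0) ^ 2 * pd i (pd j f) x)) := by
    intro i j; simp only [giH]; ring
  simp only [this, Finset.sum_add_distrib, sum_e_mul]
  ring

lemma vol_eq : M.vol = (volume M.F).toReal := by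
  simp [QuotMfd.vol, hM, gH_det, Measure.real]

end

end Pool.Agent.P.MP_1b44ce_gt
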