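import Pool.Agent.P.MP_1b44ce_gt.Heis

/-! The nilmanifold `HM A`. -/

namespace Pool.Agent.P.MP_1b44ce_gt

open MeasureTheory Matrix
open scoped ContDiff

variable {d : ℕ}

/-- side lengths of the fundamental box -/
def len (A : ℕ) (i : Fin (d + 3)) : ℕ := if i = 1 then A + 1 else 1

lemma len_pos (A : ℕ) (i : Fin (d + 3)) : 0 < len A i := by
  unfold len; split_ifs <;> omega

lemma len_ne {A : ℕ} {i : Fin (d + 3)} (h : i ≠ 1) : len A i = 1 := by simp [len, h]

/-- the lattice -/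
def Lam (A : ℕ) (u : E d) : Prop := ∀ i, ∃ z : ℤ, u i = len A i * z

lemma Lam.int {A : ℕ} {u : E d} (h : Lam A u) (i : Fin (d + 3)) : ∃ z : ℤ, u i = z := by
  obtain ⟨z, hz⟩ := h i
  exact ⟨len A i * z, by rw [hz]; push_cast; ring⟩

lemma Lam.shift {A : ℕ} {u : E d} (h : Lam A u) (z : ℤ) :
    Lam A (fun i => u i + e 2 i * z) := by
  intro i
  by_cases hi : i = 2
  · subst hi
    obtain ⟨w, hw⟩ := h.int 2
    exact ⟨w + z, by simp [len_ne ne12.symm, hw]⟩
  · simpa [e_ne hi] using h i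

lemma Lam.mul {A : ℕ} {u v : E d} (hu : Lam A u) (hv : Lam A v) : Lam A (mul u v) := by
  obtain ⟨a, ha⟩ := hu.int 0
  obtain ⟨b, hb⟩ := hv.int 1
  have h : Lam A (fun i => u i + v i) := by
    intro i
    obtain ⟨z, hz⟩ := hu i
    obtain ⟨w, hw⟩ := hv i
    exact ⟨z + w, by simp only [hz, hw]; push_cast; ring⟩
  have := h.shift (a * b)
  convert this using 1
  funext i; simp [Pool.Agent.P.MP_1b44ce_gt.mul, ha, hb]

lemma Lam.inv {A : ℕ} {u : E d} (hu : Lam A u) : Lam A (inv u) := by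
  obtain ⟨a, ha⟩ := hu.int 0
  obtain ⟨b, hb⟩ := hu.int 1
  have h : Lam A (fun i => -u i) := by
    intro i
    obtain ⟨z, hz⟩ := hu i
    exact ⟨-z, by simp only [hz]; push_cast; ring⟩
  have := h.shift (a * b)
  convert this using 1
  funext i; simp [Pool.Agent.P.MP_1b44ce_gt.inv, ha, hb]

lemma Lt_mul (u v : E d) : Lt (mul u v) = Lt u * Lt v := by
  ext x i; simp [mul_assoc']

lemma Lt_zero : Lt (0 : E d) = 1 := by ext x i; simp

lemma Lt_inv (u : E d) : Lt (inv u) = (Lt u)⁻¹ := by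
  rw [eq_inv_iff_mul_eq_one, ← Lt_mul, inv_mul', Lt_zero]

def Gam (A : ℕ) : Subgroup (Equiv.Perm (E d)) where
  carrier := {γ | ∃ u, Lam A u ∧ γ = Lt u}
  mul_mem' := by
    rintro _ _ ⟨u, hu, rfl⟩ ⟨v, hv, rfl⟩
    exact ⟨mul u v, hu.mul hv, (Lt_mul u v).symm⟩
  one_mem' := ⟨0, fun i => ⟨0, by simp⟩, Lt_zero.symm⟩
  inv_mem' := by
    rintro _ ⟨u, hu, rfl⟩
    exact ⟨inv u, hu.inv, (Lt_inv u).symm⟩

lemma mem_Gam {A : ℕ} {γ : Equiv.Perm (E d)} : γ ∈ Gam A ↔ ∃ u, Lam A u ∧ γ = Lt u := Iff.rfl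

/-- the fundamental box -/
def box (A : ℕ) : Set (E d) := Set.pi Set.univ fun i => Set.Ico 0 (len A i : ℝ)

/-- linear part of a left translation -/
noncomputable def shear (a : ℝ) : E d →L[ℝ] E d :=
  ContinuousLinearMap.id ℝ (E d) +
    (ContinuousLinearMap.proj (R := ℝ) (φ := fun _ : Fin (d + 3) => ℝ) 1).smulRight
      (fun i => e 2 i * a)

lemma shear_apply (a : ℝ) (v : E d) (i : Fin (d + 3)) :
    shear a v i = v i + e 2 i * (a * v 1) := by
  simp [shear]; ring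

lemma mul_eq_shear (u : E d) : mul u = fun x => u + shear (u 0) x := by
  funext x i; simp [mul, shear_apply]; ring

lemma hasFDerivAt_mul (u x : E d) : HasFDerivAt (mul u) (shear (u 0)) x := by
  rw [mul_eq_shear]
  exact (shear (u 0)).hasFDerivAt.const_add u

lemma contDiff_mul (u : E d) : ContDiff ℝ ∞ (mul u) := by
  rw [mul_eq_shear]
  exact contDiff_const.add (shear (u 0)).contDiff

lemma int_uniq {L y y' s : ℝ} (hL : 0 < L) {z w : ℤ} (h1 : y = L * z + s) (h2 : y' = L * w + s)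
    (hy : y ∈ Set.Ico 0 L) (hy' : y' ∈ Set.Ico 0 L) : z = w := by
  obtain ⟨a1, a2⟩ := hy
  obtain ⟨b1, b2⟩ := hy'
  have h3 : (z : ℝ) - w < 1 := by
    by_contra h; push Not at h; nlinarith
  have h4 : (w : ℝ) - z < 1 := by
    by_contra h; push Not at h; nlinarith
  have h3' : z - w < 1 := by exact_mod_cast h3
  have h4' : w - z < 1 := by exact_mod_cast h4
  omega

lemma int_ex {L : ℝ} (hL : 0 < L) (s : ℝ) : ∃ z : ℤ, L * z + s ∈ Set.Ico 0 L := by
  refine ⟨-⌊s / L⌋, ?_, ?_⟩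
  · have := Int.floor_le (s / L)
    rw [le_div_iff₀ hL] at this
    push_cast; linarith
  · have := Int.lt_floor_add_one (s / L)
    rw [div_lt_iff₀ hL] at this
    push_cast; linarith

lemma box_ex (A : ℕ) (x : E d) : ∃ u, Lam A u ∧ mul u x ∈ box A := by
  have hL : ∀ i : Fin (d + 3), (0 : ℝ) < len A i := fun i => by exact_mod_cast len_pos A i
  choose z hz using fun i => int_ex (hL i) (x i)
  obtain ⟨w, hw⟩ := int_ex (hL 2) (x 2 + len A (0 : Fin (d + 3)) * z 0 * x 1)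
  refine ⟨fun i => len A i * (if i = 2 then w else z i : ℤ), fun i => ⟨_, rfl⟩, ?_⟩
  intro i _
  by_cases hi : i = 2
  · subst hi
    simp only [mul, e_self, if_neg ne02, if_true]
    convert hw using 1; ring
  · simpa [mul, e_ne hi, hi] using hz i

lemma box_uniq {A : ℕ} {x u v : E d} (hu : Lam A u) (hv : Lam A v) (h1 : mul u x ∈ box A)
    (h2 : mul v x ∈ box A) : u = v := by
  have hL : ∀ i : Fin (d + 3), (0 : ℝ) < len A i := fun i => by exact_mod_cast len_pos A i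
  have h : ∀ i, i ≠ 2 → u i = v i := by
    intro i hi
    obtain ⟨z, hz⟩ := hu i
    obtain ⟨w, hw⟩ := hv i
    have := int_uniq (hL i) (z := z) (w := w) (s := x i) (by simp [mul, e_ne hi, hz])
      (by simp [mul, e_ne hi, hw]) (h1 i trivial) (h2 i trivial)
    rw [hz, hw, this]
  funext i
  by_cases hi : i = 2
  · subst hi
    obtain ⟨z, hz⟩ := hu 2
    obtain ⟨w, hw⟩ := hv 2
    have := int_uniq (hL 2) (z := z) (w := w) (s := x 2 + u 0 * x 1)
      (by simp [mul, hz]; ring) (by simp [mul, hw, h 0 ne02]; ring) (h1 2 trivial) (h2 2 trivial)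
    rw [hz, hw, this]
  · exact h i hi

lemma box_fund (A : ℕ) (x : E d) : ∃! γ, γ ∈ Gam A ∧ γ x ∈ box A := by
  obtain ⟨u, hu, hx⟩ := box_ex A x
  refine ⟨Lt u, ⟨⟨u, hu, rfl⟩, hx⟩, ?_⟩
  rintro _ ⟨⟨v, hv, rfl⟩, hy⟩
  rw [box_uniq hv hu hy hx]

/-- the closed box -/
def cbox (A : ℕ) : Set (E d) := Set.pi Set.univ fun i => Set.Icc 0 (len A i : ℝ)

lemma cbox_compact (A : ℕ) : IsCompact (cbox (d := d) A) :=
  isCompact_univ_pi fun _ => isCompact_Icc

lemma box_sub (A : ℕ) : box (d := d) A ⊆ cbox A :=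
  Set.pi_mono fun _ _ => Set.Ico_subset_Icc_self

lemma box_meas (A : ℕ) : MeasurableSet (box (d := d) A) :=
  MeasurableSet.univ_pi fun _ => measurableSet_Ico

lemma continuous_mul2 : Continuous (fun p : E d × E d => mul p.1 p.2) := by
  unfold mul; fun_prop

lemma continuous_inv' : Continuous (inv : E d → E d) := by
  unfold inv; fun_prop

lemma lam_finite (A : ℕ) {K : Set (E d)} (hK : IsCompact K) :
    {u : E d | Lam A u ∧ u ∈ K}.Finite := by
  obtain ⟨R, hR⟩ := hK.isBounded.exists_norm_le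
  have hfin : (Set.pi Set.univ fun _ : Fin (d + 3) =>
      ((fun z : ℤ => (z : ℝ)) '' Set.Icc (-⌈R⌉) ⌈R⌉)).Finite :=
    Set.Finite.pi fun _ => (Set.finite_Icc _ _).image _
  refine hfin.subset ?_
  rintro u ⟨hu, huK⟩ i _
  obtain ⟨z, hz⟩ := hu.int i
  have h1 : |u i| ≤ R := (norm_le_pi_norm u i).trans (hR u huK)
  rw [hz, abs_le] at h1
  have h2 := Int.le_ceil R
  refine ⟨z, ⟨?_, ?_⟩, hz.symm⟩
  · have : ((-⌈R⌉ : ℤ) : ℝ) ≤ z := by push_cast; linarith
    exact_mod_cast this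
  · have : (z : ℝ) ≤ (⌈R⌉ : ℤ) := by linarith
    exact_mod_cast this

/-- The nilmanifold with base area `A + 1` and fibre length `1`, times the unit torus. -/
noncomputable def HM (d A : ℕ) : QuotMfd (d + 3) where
  g := gH
  g_smooth i j := by unfold gH; fun_prop
  g_pos := gH_pos
  Γ := Gam A
  Γ_smooth := by
    rintro _ ⟨u, -, rfl⟩
    exact contDiff_mul u
  Γ_isom := by
    rintro _ ⟨u, -, rfl⟩ x v w
    have : fderiv ℝ (fun y => Lt u y) x = shear (u 0) := (hasFDerivAt_mul u x).fderiv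
    rw [this, gH_form', gH_form']
    refine Finset.sum_congr rfl fun i _ => ?_
    simp only [fr, shear_apply, Lt_apply, mul, e20, e21]
    ring
  free := by
    rintro _ ⟨u, -, rfl⟩ x hx
    have h : mul (mul u x) (inv x) = u := by rw [mul_assoc', mul_inv', mul_zero']
    rw [Lt_apply] at hx
    rw [hx, mul_inv'] at h
    rw [← h, Lt_zero]
  proper := by
    intro K hK
    have hK' : IsCompact ((fun p : E d × E d => mul p.1 (inv p.2)) '' (K ×ˢ K)) :=
      (hK.prod hK).image (continuous_mul2.comp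
        (continuous_fst.prodMk (continuous_inv'.comp continuous_snd)))
    refine ((lam_finite A hK').image Lt).subset ?_
    rintro _ ⟨⟨u, hu, rfl⟩, x, hx, hy⟩
    refine ⟨u, ⟨hu, (mul u x, x), ⟨hy, hx⟩, ?_⟩, rfl⟩
    simp only
    rw [mul_assoc', mul_inv', mul_zero']
  cocompact := ⟨cbox A, cbox_compact A, fun x => by
    obtain ⟨u, hu, hx⟩ := box_ex A x
    exact ⟨Lt u, ⟨u, hu, rfl⟩, box_sub A hx⟩⟩
  F := box A
  F_meas := box_meas A
  F_fund := box_fund A

lemma box_vol (A : ℕ) : (volume (box (d := d) A)).toReal = A + 1 := by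
  rw [box, Real.volume_pi_Ico_toReal (fun i => by simp)]
  simp only [sub_zero]
  rw [Finset.prod_eq_single 1]
  · simp [len]
  · intro i _ hi; simp [len_ne hi]
  · simp

lemma HM_vol (A : ℕ) : (HM d A).vol = A + 1 := by
  rw [vol_eq _ rfl]; exact box_vol A

end Pool.Agent.P.MP_1b44ce_gt
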