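import Pool.Agent.P.MP_1b44ce_gt.Count

/-! Theta functions give an eigenvalue of `HM d A` of large multiplicity. -/

namespace Pool.Agent.P.MP_1b44ce_gt

open MeasureTheory Matrix Set Complex
open scoped ContDiff Real

variable {d : ℕ}

/-- the function on the group attached to an entire function `h` -/
noncomputable def T (m : ℕ) (h : ℂ → ℂ) (p : E d) : ℂ :=
  cexp (2 * π * I * m * p 2 - π * m * (p 0 : ℂ) ^ 2) * h (p 1 + I * p 0)

lemma contDiff_coord (i : Fin (d + 3)) : ContDiff ℝ ∞ (fun p : E d => (p i : ℂ)) :=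
  ofRealCLM.contDiff.comp (contDiff_apply ℝ ℝ i)

lemma contDiff_T (m : ℕ) {h : ℂ → ℂ} (hh : Differentiable ℂ h) : ContDiff ℝ ∞ (T (d := d) m h) := by
  have h1 : ContDiff ℝ ∞ h := (hh.contDiff (n := ∞)).restrict_scalars ℝ
  have h0 := contDiff_coord (d := d) 0
  have h1' := contDiff_coord (d := d) 1
  have h2 := contDiff_coord (d := d) 2
  refine ContDiff.mul (ContDiff.cexp ?_) (h1.comp (h1'.add (contDiff_const.mul h0)))
  exact (contDiff_const.mul h2).sub (contDiff_const.mul (h0.pow 2))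

/-- coefficients of the action of the frame -/
noncomputable def cf (m : ℕ) (i : Fin (d + 3)) (s : ℂ) : ℂ :=
  2 * π * I * m * (e i 2 + s * e i 1) - 2 * π * m * s * e i 0

noncomputable def dl (i : Fin (d + 3)) : ℂ := e i 1 + I * e i 0

lemma T_deriv (m : ℕ) {h : ℂ → ℂ} (hh : Differentiable ℂ h) (p : E d) (i : Fin (d + 3)) :
    HasDerivAt (fun t : ℝ => T m h (mul p (t • e i)))
      (cf m i (p 0) * T m h p + dl i * T m (deriv h) p) 0 := by
  have h1 : HasDerivAt (fun s : ℂ => 2 * π * I * m * (p 2 + s * (e i 2 + p 0 * e i 1))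
      - π * m * (p 0 + s * e i 0) ^ 2) (cf m i (p 0)) 0 := by
    refine HasDerivAt.congr_deriv (((((hasDerivAt_id (0 : ℂ)).mul_const _).const_add _).const_mul
      _).sub (((((hasDerivAt_id (0 : ℂ)).mul_const _).const_add _).pow 2).const_mul _)) ?_
    simp [cf]; ring
  have h2 : HasDerivAt (fun s : ℂ => (p 1 + I * p 0) + s * dl i) (dl i) 0 := by
    simpa using ((hasDerivAt_id (0 : ℂ)).mul_const (dl i)).const_add (p 1 + I * p 0)
  have h3 := h1.cexp.mul ((hh _).hasDerivAt.comp (0 : ℂ) h2)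
  have h4 := HasDerivAt.comp_ofReal (z := 0) (by simpa using h3)
  refine HasDerivAt.congr_deriv (h4.congr_of_eventuallyEq (Filter.Eventually.of_forall
    fun t => ?_)) ?_
  · simp only [T, mul, dl, Pi.smul_apply, smul_eq_mul, e20, e21, e_self, Pi.mul_apply,
      Function.comp]
    push_cast
    congr 2 <;> ring
  · simp only [T]; ring

lemma T_eig {A : ℕ} (m : ℕ) {h : ℂ → ℂ} (hh : Differentiable ℂ h)
    (hi : ∀ u, Lam A u → ∀ x : E d, T m h (mul u x) = T m h x) (l : ℂ →L[ℝ] ℝ) :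
    (fun p : E d => l (T m h p)) ∈ Eig d A (4 * π ^ 2 * m ^ 2 + 2 * π * m) := by
  have hs : ContDiff ℝ ∞ (fun p : E d => l (T m h p)) := l.contDiff.comp (contDiff_T m hh)
  have hh' : Differentiable ℂ (deriv h) := hh.deriv
  refine ⟨hs, fun u hu x => by simp only [hi u hu x], fun x => ?_⟩
  have h1 : ∀ i, X i (fun p : E d => l (T m h p)) =
      fun p => l (cf m i (p 0) * T m h p + dl i * T m (deriv h) p) := fun i => by
    funext p
    exact X_eq_of (diff_of hs) (l.hasFDerivAt.comp_hasDerivAt _ (T_deriv m hh p i))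
  have h2 : ∀ i, X i (X i (fun p : E d => l (T m h p))) x =
      l ((2 * π * I * m * (e i 0 * e i 1) - 2 * π * m * e i 0 * e i 0) * T m h x
        + cf m i (x 0) * (cf m i (x 0) * T m h x + dl i * T m (deriv h) x)
        + dl i * (cf m i (x 0) * T m (deriv h) x + dl i * T m (deriv (deriv h)) x)) := by
    intro i
    refine X_eq_of (diff_of (contDiff_X hs i)) ?_
    rw [h1]
    have h3 : HasDerivAt (fun t : ℝ => cf m i (mul x (t • e i) 0 : ℝ))
        (2 * π * I * m * (e i 0 * e i 1) - 2 * π * m * e i 0 * e i 0) 0 := by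
      have h4 : HasDerivAt (fun s : ℂ => cf m i (x 0) + s *
          (2 * π * I * m * (e i 0 * e i 1) - 2 * π * m * e i 0 * e i 0))
          (2 * π * I * m * (e i 0 * e i 1) - 2 * π * m * e i 0 * e i 0) ((0 : ℝ) : ℂ) := by
        simpa using ((hasDerivAt_id ((0 : ℝ) : ℂ)).mul_const
          (2 * π * I * m * (e i 0 * e i 1) - 2 * π * m * e i 0 * e i 0)).const_add (cf m i (x 0))
      refine h4.comp_ofReal.congr_of_eventuallyEq (Filter.Eventually.of_forall fun t => ?_)
      simp only [cf, mul, Pi.smul_apply, smul_eq_mul, e20]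
      push_cast; ring
    have h5 := (h3.mul (T_deriv m hh x i)).add ((T_deriv m hh' x i).const_mul (dl i))
    exact l.hasFDerivAt.comp_hasDerivAt _ (HasDerivAt.congr_deriv h5 (by simp))
  simp only [h2]
  rw [sum3, ← map_add, ← map_add, ← map_neg, ← smul_eq_mul _ (l _), ← map_smul]
  · congr 1
    simp only [cf, dl, e_self, e01, e02, e10, e12, e20, e21, real_smul]
    push_cast
    linear_combination (-(4 * π ^ 2 * m ^ 2 * (1 + (x 0 : ℂ) ^ 2) * T m h x)
      - T m (deriv (deriv h)) x) * I_sq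
  · intro i h0 h1 h2
    simp [cf, dl, e_ne (Ne.symm h0), e_ne (Ne.symm h1), e_ne (Ne.symm h2)]

/-- the theta functions -/
noncomputable def th (m L r : ℕ) (w : ℂ) : ℂ :=
  cexp (2 * π * I * r * w / L) * jacobiTheta₂ (m * w + I * r / L) (I * m)

lemma th_diff {m : ℕ} (hm : 0 < m) (L r : ℕ) : Differentiable ℂ (th m L r) := by
  have h : Differentiable ℂ fun z => jacobiTheta₂ z (I * m) := fun z =>
    differentiableAt_jacobiTheta₂_fst z (by simpa using hm)
  unfold th
  exact Differentiable.mul (by fun_prop) (h.comp (by fun_prop))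

lemma theta_int (z τ : ℂ) (k : ℤ) : jacobiTheta₂ (z + k) τ = jacobiTheta₂ z τ := by
  have h : Function.Periodic (fun z => jacobiTheta₂ z τ) 1 := fun z => jacobiTheta₂_add_left z τ
  simpa using h.int_mul k z

lemma th_inv {A : ℕ} (m r : ℕ) (u : E d) (hu : Lam A u) (x : E d) :
    T m (th m (A + 1) r) (mul u x) = T m (th m (A + 1) r) x := by
  have hL : ((A : ℂ) + 1) ≠ 0 := by exact_mod_cast Nat.succ_ne_zero A
  have h1 : ∀ y : E d, T m (th m (A + 1) r) (mul (e 0) y) = T m (th m (A + 1) r) y := by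
    intro y
    have := jacobiTheta₂_add_left' (m * (y 1 + I * y 0) + I * r / (A + 1)) (I * m)
    simp only [T, th, mul, e_self, e01, e02, e20, e21]
    push_cast
    rw [show (m : ℂ) * (0 + y 1 + 0 * (1 * y 1) + I * (1 + y 0 + 0 * (1 * y 1))) + I * r / (A + 1)
      = m * (y 1 + I * y 0) + I * r / (A + 1) + I * m by ring, this]
    simp only [← mul_assoc, ← Complex.exp_add]
    congr 2
    field_simp
    linear_combination (-(m : ℂ) * (A + 1) * (1 + 2 * y 0)) * I_sq
  have h2 : Function.Periodic (fun s : ℝ => T m (th m (A + 1) r) (mul (s • e 0) x)) 1 := by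
    intro s
    simp only
    rw [← h1 (mul (s • e 0) x), ← mul_assoc']
    congr 2
    funext i; simp [mul]; ring
  obtain ⟨a, ha⟩ := hu.int 0
  obtain ⟨b, hb⟩ := hu 1
  obtain ⟨c, hc⟩ := hu.int 2
  have h3 := h2.int_mul a 0
  simp only [mul_one, zero_add, zero_smul, zero_mul'] at h3
  rw [← h3]
  have hlen : len A (1 : Fin (d + 3)) = A + 1 := by simp [len]
  simp only [T, th, mul, e_self, e01, e02, e20, e21, Pi.smul_apply, smul_eq_mul, ha, hb, hc, hlen]
  push_cast
  rw [show (m : ℂ) * ((A + 1) * b + x 1 + 0 * (a * x 1) + I * (a + x 0 + 0 * (a * x 1)))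
      + I * r / (A + 1) = (m * (a * 0 + x 1 + 0 * (a * 1 * x 1) +
      I * (a * 1 + x 0 + 0 * (a * 1 * x 1))) + I * r / (A + 1)) + ((m * (A + 1) * b : ℤ) : ℂ) by
      push_cast; ring, theta_int]
  simp only [← mul_assoc, ← Complex.exp_add]
  congr 1
  rw [Complex.exp_eq_exp_iff_exists_int]
  refine ⟨m * c + r * b, ?_⟩
  push_cast
  field_simp
  ring

lemma theta_ne {m : ℕ} (hm : 0 < m) : jacobiTheta₂ 0 (I * m) ≠ 0 := by
  have h := reCLM.hasSum (hasSum_jacobiTheta₂_term 0 (τ := I * m) (by simpa using hm))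
  have h1 : ∀ n : ℤ, 0 < reCLM (jacobiTheta₂_term n 0 (I * m)) := by
    intro n
    have : jacobiTheta₂_term n 0 (I * m) = ((Real.exp (-(π * n ^ 2 * m)) : ℝ) : ℂ) := by
      simp only [jacobiTheta₂_term]
      push_cast
      congr 1
      linear_combination (π * n ^ 2 * m : ℂ) * I_sq
    rw [this, reCLM_apply, ofReal_re]
    exact Real.exp_pos _
  have h2 := hasSum_lt (f := fun _ => (0 : ℝ)) (fun n => (h1 n).le) (h1 0) hasSum_zero h
  intro h0
  simp [h0] at h2

lemma th_indep {m L : ℕ} (hm : 0 < m) (hL : 0 < L) :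
    LinearIndependent ℂ fun r : Fin (m * L) => T (d := d) m (th m L r) := by
  have hm' : (m : ℂ) ≠ 0 := by exact_mod_cast hm.ne'
  have hL' : (L : ℂ) ≠ 0 := by exact_mod_cast hL.ne'
  have hp := Complex.isPrimitiveRoot_exp (m * L) (by positivity)
  refine Module.End.eigenvectors_linearIndependent'
    (LinearMap.funLeft ℂ ℂ (fun p : E d => p + (1 / m : ℝ) • e 1))
    (fun r : Fin (m * L) => cexp (2 * π * I / (m * L : ℕ)) ^ (r : ℕ))
    (fun r s hrs => Fin.ext (hp.pow_inj r.2 s.2 hrs)) _ fun r => ⟨?_, ?_⟩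
  · rw [Module.End.mem_eigenspace_iff]
    funext p
    simp only [LinearMap.funLeft_apply, T, th, Pi.add_apply, Pi.smul_apply, smul_eq_mul, e_self,
      e10, e12, ← Complex.exp_nat_mul]
    push_cast
    rw [show (m : ℂ) * (p 1 + 1 / m * 1 + I * (p 0 + 1 / m * 0)) + I * (r : ℕ) / L
      = m * (p 1 + I * p 0) + I * (r : ℕ) / L + 1 by field_simp; ring, jacobiTheta₂_add_left]
    simp only [← mul_assoc, ← Complex.exp_add]
    congr 2
    field_simp
    ring
  · intro h0
    have h1 := congrFun h0 ((-((r : ℕ) / (m * L)) : ℝ) • e 0)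
    simp only [T, th, Pi.smul_apply, smul_eq_mul, e_self, e01, e02, Pi.zero_apply,
      mul_eq_zero, Complex.exp_ne_zero, false_or] at h1
    apply theta_ne hm
    refine Eq.trans ?_ h1
    congr 1
    push_cast
    field_simp
    ring

theorem mult_ge {A m : ℕ} (hm : 0 < m)
    [Module.Finite ℝ (Eig d A (4 * π ^ 2 * m ^ 2 + 2 * π * m))] :
    m * (A + 1) ≤ 2 * Module.finrank ℝ (Eig d A (4 * π ^ 2 * m ^ 2 + 2 * π * m)) := by
  set W := Eig d A (4 * π ^ 2 * m ^ 2 + 2 * π * m)
  let Λ : (W × W) →ₗ[ℝ] (E d → ℂ) :=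
    { toFun := fun f p => (f.1.1 p : ℂ) + (f.2.1 p : ℂ) * I
      map_add' := fun f g => by funext p; simp; ring
      map_smul' := fun c f => by funext p; simp; ring }
  let v : Fin (m * (A + 1)) → W × W := fun r =>
    (⟨_, T_eig m (th_diff hm (A + 1) r) (th_inv m r) reCLM⟩,
      ⟨_, T_eig m (th_diff hm (A + 1) r) (th_inv m r) imCLM⟩)
  have h1 : LinearIndependent ℝ fun r : Fin (m * (A + 1)) => T (d := d) m (th m (A + 1) r) :=
    (th_indep hm (Nat.succ_pos A)).restrict_scalars' ℝ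
  have h2 : (Λ ∘ v) = fun r : Fin (m * (A + 1)) => T (d := d) m (th m (A + 1) r) := by
    funext r p
    exact Complex.re_add_im _
  rw [← h2] at h1
  have h3 := (LinearIndependent.of_comp Λ h1).fintype_card_le_finrank
  rw [Module.finrank_prod, Fintype.card_fin] at h3
  omega

end Pool.Agent.P.MP_1b44ce_gt
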